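import Pool.Agent.Helper460_CSP.Jo3
import Pool.Agent.Helper156.OF.RelAut

set_option autoImplicit false
set_option linter.unusedSectionVars false

/-! Homomorphisms of `Aut(F_n)` which kill the commutator transvections `x_i ↦ x_i [x_j, x_k]`:
the image of `IA_n` is abelian and generated by the classes of the partial conjugations
`x_i ↦ x_j⁻¹ x_i x_j`, which do not depend on `i`. -/

namespace Pool.Agent.V5helper31.CF

open Pool.Agent.Helper460_OutF Pool.Agent.Helper460_CSP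
open FreeGroup (of)
open Pool.Agent.Helper156.OF (SP toAut toAut_gl gl nv gl_nv gl_true Lt SP.map_nv Rel rel_aut eAut sg
  sg_left sg_right sg_other)
open scoped commutatorElement

variable {ι : Type} [DecidableEq ι]

section kc

variable {G : Type} [Group G] {q : MulAut (FreeGroup ι) →* G}

/-- `q` kills the commutator transvections `x_i ↦ x_i [x_j, x_k]`. -/
def KC (q : MulAut (FreeGroup ι) →* G) : Prop :=
  ∀ i j k : ι, i ≠ j → i ≠ k → j ≠ k → q (rr i ⁅of j, of k⁆) = 1

lemma pres_rr {i p : ι} (hip : i ≠ p) {w : FreeGroup ι} (hw : kil i w = w) : Pres i (rr p w) := by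
  refine ⟨rr_ne hip w, fun j hj => ?_⟩
  by_cases h : j = p
  · subst h
    rw [rr_self, map_mul, kil_ne hj, kil_comm, hw]
  · rw [rr_ne h, kil_ne hj]

lemma pres_ll {i p : ι} (hip : i ≠ p) {w : FreeGroup ι} (hw : kil i w = w) : Pres i (ll p w) := by
  refine ⟨ll_ne hip w, fun j hj => ?_⟩
  by_cases h : j = p
  · subst h
    rw [ll_self, map_mul, map_inv, kil_ne hj, kil_comm, hw]
  · rw [ll_ne h, kil_ne hj]

lemma pres_cc {i p : ι} (hip : i ≠ p) {w : FreeGroup ι} (hw : kil i w = w) : Pres i (cc p w) := by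
  refine ⟨cc_ne hip w, fun j hj => ?_⟩
  by_cases h : j = p
  · subst h
    rw [cc_self, map_mul, map_mul, map_inv, kil_ne hj, kil_comm, hw]
  · rw [cc_ne h, kil_ne hj]

lemma kil_comm2 {i j k : ι} (hj : j ≠ i) (hk : k ≠ i) : kil i ⁅of j, of k⁆ = ⁅of j, of k⁆ :=
  kil_comm_of hj hk

lemma KC.rr_commute (h : KC q) (i : ι) (u v : FreeGroup ι) :
    Commute (q (rr i u)) (q (rr i v)) := by
  refine commute_of_gen (q.comp (rr i)) (fun j k => ?_) u v
  show Commute (q (rr i (of j))) (q (rr i (of k)))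
  by_cases hj : j = i
  · subst hj; rw [rr_of_self, map_one]; exact Commute.one_left _
  by_cases hk : k = i
  · subst hk; rw [rr_of_self, map_one]; exact Commute.one_right _
  by_cases hjk : j = k
  · subst hjk; exact Commute.refl _
  rw [← commutatorElement_eq_one_iff_commute, ← map_commutatorElement, ← map_commutatorElement]
  exact h i j k (Ne.symm hj) (Ne.symm hk) hjk

lemma KC.rr_one (h : KC q) (i : ι) (u v : FreeGroup ι) : q (rr i ⁅u, v⁆) = 1 := by
  rw [map_commutatorElement, map_commutatorElement, commutatorElement_eq_one_iff_commute]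
  exact h.rr_commute i u v

lemma KC.rr_conj (h : KC q) (i : ι) (u v : FreeGroup ι) : q (rr i (u * v * u⁻¹)) = q (rr i v) := by
  rw [map_mul, map_mul, map_inv, map_mul, map_mul, map_inv, (h.rr_commute i u v).eq,
    mul_inv_cancel_right]

lemma negA_rr (i : ι) (w : FreeGroup ι) :
    toAut (negA : SP ι) * rr i w * (toAut (negA : SP ι))⁻¹ = ll i (toAut (negA : SP ι) w) := by
  rw [mul_inv_eq_iff_eq_mul]
  show toAut (negA : SP ι) * lr i (1, w) = _
  rw [sp_lr, if_neg (by simp [negA, nv]), map_one]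
  rfl

lemma negA_negA (w : FreeGroup ι) : toAut (negA : SP ι) (toAut (negA : SP ι) w) = w := by
  have : ((toAut (negA : SP ι) : MulAut (FreeGroup ι)).toMonoidHom.comp
      (toAut (negA : SP ι) : MulAut (FreeGroup ι)).toMonoidHom) = MonoidHom.id _ := by
    ext1 i
    show toAut (negA : SP ι) (toAut (negA : SP ι) (of i)) = of i
    rw [toAut_negA, map_inv, toAut_negA, inv_inv]
  exact DFunLike.congr_fun this w

lemma KC.ll_commute (h : KC q) (i : ι) (u v : FreeGroup ι) :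
    Commute (q (ll i u)) (q (ll i v)) := by
  have e : ∀ w, q (ll i w) = q (toAut (negA : SP ι)) * q (rr i (toAut (negA : SP ι) w)) *
      (q (toAut (negA : SP ι)))⁻¹ := by
    intro w
    rw [← map_inv, ← map_mul, ← map_mul, negA_rr, negA_negA]
  rw [e, e]
  have := h.rr_commute i (toAut (negA : SP ι) u) (toAut (negA : SP ι) v)
  generalize q (toAut (negA : SP ι)) = s
  generalize q (rr i (toAut (negA : SP ι) u)) = a at *
  generalize q (rr i (toAut (negA : SP ι) v)) = b at *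
  show s * a * s⁻¹ * (s * b * s⁻¹) = s * b * s⁻¹ * (s * a * s⁻¹)
  calc s * a * s⁻¹ * (s * b * s⁻¹) = s * (a * b) * s⁻¹ := by group
    _ = s * (b * a) * s⁻¹ := by rw [this.eq]
    _ = _ := by group

lemma KC.ll_one (h : KC q) (i : ι) (u v : FreeGroup ι) : q (ll i ⁅u, v⁆) = 1 := by
  rw [map_commutatorElement, map_commutatorElement, commutatorElement_eq_one_iff_commute]
  exact h.ll_commute i u v

lemma KC.ll_conj (h : KC q) (i : ι) (u v : FreeGroup ι) : q (ll i (u * v * u⁻¹)) = q (ll i v) := by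
  rw [map_mul, map_mul, map_inv, map_mul, map_mul, map_inv, (h.ll_commute i u v).eq,
    mul_inv_cancel_right]

lemma KC.cc_one (h : KC q) (i : ι) (u v : FreeGroup ι) : q (cc i ⁅u, v⁆) = 1 := by
  rw [cc_eq, map_mul, h.rr_one, h.ll_one, mul_one]

lemma ll_rr_comm' (i : ι) (u w : FreeGroup ι) : Commute (q (ll i u)) (q (rr i w)) := by
  show q (ll i u) * q (rr i w) = q (rr i w) * q (ll i u)
  rw [← map_mul, ← map_mul, ll_rr_comm]

lemma KC.cc_rr (h : KC q) (i : ι) (u w : FreeGroup ι) : Commute (q (cc i u)) (q (rr i w)) := by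
  rw [cc_eq, map_mul]
  exact (ll_rr_comm' i u w).mul_left (h.rr_commute i u w)

lemma KC.cc_ll (h : KC q) (i : ι) (u w : FreeGroup ι) : Commute (q (cc i u)) (q (ll i w)) := by
  rw [cc_eq, map_mul]
  exact (h.ll_commute i u w).mul_left (ll_rr_comm' i w u).symm

lemma commute_of_conj' {a b : G} (h : a * b * a⁻¹ = b) : Commute a b := by
  show a * b = b * a
  rwa [mul_inv_eq_iff_eq_mul] at h

lemma KC.cc_rr2 (h : KC q) {i j k : ι} (hij : i ≠ j) (hik : i ≠ k) (hjk : j ≠ k) :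
    Commute (q (cc i (of j))) (q (rr k (of i))) := by
  apply commute_of_conj'
  rw [← map_inv, ← map_mul, ← map_mul,
    (pres_cc (Ne.symm hik) (kil_ne hjk)).rr, cc_self, kil_ne (Ne.symm hij)]
  have := h.rr_conj k (of j)⁻¹ (of i)
  rwa [inv_inv] at this

lemma KC.cc_ll2 (h : KC q) {i j k : ι} (hij : i ≠ j) (hik : i ≠ k) (hjk : j ≠ k) :
    Commute (q (cc i (of j))) (q (ll k (of i))) := by
  apply commute_of_conj'
  rw [← map_inv, ← map_mul, ← map_mul,
    (pres_cc (Ne.symm hik) (kil_ne hjk)).ll, cc_self, kil_ne (Ne.symm hij)]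
  have := h.ll_conj k (of j)⁻¹ (of i)
  rwa [inv_inv] at this

lemma KC.indep [Fintype ι] (h : KC q) {i j k : ι} (hij : i ≠ j) (hik : i ≠ k) (hjk : j ≠ k) :
    q (cc i (of j)) = q (cc k (of j)) := by
  let σ : SP ι := sg (i, true) (k, true)
  have s1 : (σ : Equiv.Perm (Lt ι)) (i, true) = nv (k, true) := sg_left
  have s2 : (σ : Equiv.Perm (Lt ι)) (k, true) = (i, true) := sg_right hik
  have s3 : ∀ c : Lt ι, c.1 ≠ i → c.1 ≠ k → (σ : Equiv.Perm (Lt ι)) c = c :=
    fun c h1 h2 => sg_other h1 h2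
  have : Nonempty ι := ⟨i⟩
  have R := rel_aut (α := ι)
  have k1 := R.e4 (i, true) (k, true) σ hik s1 s2 s3
  have e1 : eAut (nv (i, true)) ((k, true) : Lt ι) = ll i (of k) := by
    rw [eAut_eq _ _ (show (nv (i, true) : Lt ι).1 ≠ (k, true).1 from hik), if_neg (by simp [nv]),
      gl_true]
    rfl
  have e2 : eAut ((k, true) : Lt ι) (i, true) = rr k (of i) := by
    rw [eAut_eq _ _ (show ((k, true) : Lt ι).1 ≠ (i, true).1 from Ne.symm hik), if_pos rfl,
      gl_true]
  have e3 : eAut ((i, true) : Lt ι) (k, true) = rr i (of k) := by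
    rw [eAut_eq _ _ (show ((i, true) : Lt ι).1 ≠ (k, true).1 from hik), if_pos rfl, gl_true]
  rw [e1, e2, e3] at k1
  have k2 : toAut σ = ll i (of k) * rr k (of i) * (rr i (of k))⁻¹ := by rw [k1]; group
  have c1 : Commute (q (cc i (of j))) (q (toAut σ)) := by
    rw [k2, map_mul, map_mul, map_inv]
    exact ((h.cc_ll i _ _).mul_right (h.cc_rr2 hij hik hjk)).mul_right (h.cc_rr i _ _).inv_right
  have c2 := sp_cc (q := q) σ i (of j)
  rw [← c1.eq, mul_inv_cancel_right] at c2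
  rw [c2]
  have e4 : spi σ i = k := by
    unfold spi
    rw [s1]
    rfl
  have e5 : toAut σ (of j) = of j := by
    rw [← gl_true, toAut_gl, s3 (j, true) (Ne.symm hij) hjk]
  rw [e4, e5]

lemma cc_cc_exact {i j p l : ι} (h1 : p ≠ i) (h2 : p ≠ j) (h3 : l ≠ i) :
    Commute (cc i (of j)) (cc p (of l)) := by
  apply commute_of_conj'
  rw [(pres_cc h1 (kil_ne (Ne.symm h2))).cc, cc_ne h3]

variable [Fintype ι]

lemma exists_out (s : Finset ι) (h : s.card < Fintype.card ι) : ∃ a, a ∉ s := by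
  by_contra hc
  push Not at hc
  have : s = Finset.univ := Finset.eq_univ_iff_forall.2 hc
  rw [this, Finset.card_univ] at h
  exact lt_irrefl _ h

lemma out1 (h : 2 ≤ Fintype.card ι) (a : ι) : ∃ x : ι, x ≠ a := by
  obtain ⟨x, hx⟩ := exists_out {a} (by
    rw [Finset.card_singleton]; omega)
  exact ⟨x, by simpa using hx⟩

lemma out2 (h : 3 ≤ Fintype.card ι) (a b : ι) : ∃ x : ι, x ≠ a ∧ x ≠ b := by
  obtain ⟨x, hx⟩ := exists_out {a, b} (lt_of_le_of_lt Finset.card_le_two h)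
  simp only [Finset.mem_insert, Finset.mem_singleton, not_or] at hx
  exact ⟨x, hx.1, hx.2⟩

lemma out3 (h : 4 ≤ Fintype.card ι) (a b c : ι) : ∃ x : ι, x ≠ a ∧ x ≠ b ∧ x ≠ c := by
  obtain ⟨x, hx⟩ := exists_out {a, b, c} (lt_of_le_of_lt Finset.card_le_three h)
  simp only [Finset.mem_insert, Finset.mem_singleton, not_or] at hx
  exact ⟨x, hx.1, hx.2.1, hx.2.2⟩

lemma out4 (h : 5 ≤ Fintype.card ι) (a b c d : ι) : ∃ x : ι, x ≠ a ∧ x ≠ b ∧ x ≠ c ∧ x ≠ d := by
  obtain ⟨x, hx⟩ := exists_out {a, b, c, d} (lt_of_le_of_lt Finset.card_le_four h)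
  simp only [Finset.mem_insert, Finset.mem_singleton, not_or] at hx
  exact ⟨x, hx.1, hx.2.1, hx.2.2.1, hx.2.2.2⟩

lemma out5 (h : 6 ≤ Fintype.card ι) (a b c d e : ι) :
    ∃ x : ι, x ≠ a ∧ x ≠ b ∧ x ≠ c ∧ x ≠ d ∧ x ≠ e := by
  obtain ⟨x, hx⟩ := exists_out {a, b, c, d, e} (lt_of_le_of_lt Finset.card_le_five h)
  simp only [Finset.mem_insert, Finset.mem_singleton, not_or] at hx
  exact ⟨x, hx.1, hx.2.1, hx.2.2.1, hx.2.2.2.1, hx.2.2.2.2⟩

/-- replacing the first index of a partial conjugation -/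
lemma KC.move (h : KC q) (h4 : 4 ≤ Fintype.card ι) {i j : ι} (hij : i ≠ j) (a b : ι) :
    ∃ m, m ≠ a ∧ m ≠ b ∧ m ≠ j ∧ q (cc i (of j)) = q (cc m (of j)) := by
  obtain ⟨m, m1, m2, m3⟩ := out3 h4 a b j
  by_cases hm : i = m
  · subst hm
    exact ⟨i, m1, m2, m3, rfl⟩
  · exact ⟨m, m1, m2, m3, h.indep hij hm (Ne.symm m3)⟩

lemma KC.cc_cc (h : KC q) (h4 : 4 ≤ Fintype.card ι) (i j p l : ι) :
    Commute (q (cc i (of j))) (q (cc p (of l))) := by
  by_cases hij : i = j
  · subst hij; rw [cc_of_self, map_one]; exact Commute.one_left _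
  by_cases hpl : p = l
  · subst hpl; rw [cc_of_self, map_one]; exact Commute.one_right _
  obtain ⟨m, m1, -, m3, m4⟩ := h.move h4 hij l l
  obtain ⟨r, r1, r2, r3, r4⟩ := h.move h4 hpl m j
  rw [m4, r4]
  have := cc_cc_exact (i := m) (j := j) (p := r) (l := l) r1 r2 (Ne.symm m1)
  exact this.map q

variable (q) in
/-- the subgroup generated by the classes of the partial conjugations -/
def BB : Subgroup G := Subgroup.closure {g | ∃ i j : ι, g = q (cc i (of j))}

lemma cc_mem_BB (i : ι) (w : FreeGroup ι) : q (cc i w) ∈ BB q := by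
  induction w using FreeGroup.induction_on with
  | C1 => rw [map_one, map_one]; exact one_mem _
  | of j => exact Subgroup.subset_closure ⟨i, j, rfl⟩
  | inv_of j ih =>
    have ih' : q (cc i (of j)) ∈ BB q := ih
    show q (cc i (of j)⁻¹) ∈ BB q
    rw [map_inv, map_inv]; exact inv_mem ih'
  | mul a b ha hb => rw [map_mul, map_mul]; exact mul_mem ha hb

lemma KC.BB_comm (h : KC q) (h4 : 4 ≤ Fintype.card ι) {a b : G} (ha : a ∈ BB q) (hb : b ∈ BB q) :
    Commute a b := by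
  have h1 : ∀ i j, ∀ b ∈ BB q, Commute (q (cc i (of j))) b := by
    intro i j b hb
    induction hb using Subgroup.closure_induction with
    | mem x hx =>
      obtain ⟨p, l, rfl⟩ := hx
      exact h.cc_cc h4 i j p l
    | one => exact Commute.one_right _
    | mul x y _ _ hx hy => exact hx.mul_right hy
    | inv x _ hx => exact hx.inv_right
  induction ha using Subgroup.closure_induction with
  | mem x hx =>
    obtain ⟨p, l, rfl⟩ := hx
    exact h1 p l b hb
  | one => exact Commute.one_left _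
  | mul x y _ _ hx hy => exact hx.mul_left hy
  | inv x _ hx => exact hx.inv_left

lemma conj_BB_of {g : G} (hg : ∀ i j, g * q (cc i (of j)) * g⁻¹ ∈ BB q) :
    ∀ a ∈ BB q, g * a * g⁻¹ ∈ BB q := by
  apply conj_closure
  rintro a ⟨i, j, rfl⟩
  exact hg i j

lemma KC.conj_pres (h : KC q) (h4 : 4 ≤ Fintype.card ι) {φ : MulAut (FreeGroup ι)} {p r : ι}
    (hφ : ∀ m, m ≠ p → m ≠ r → Pres m φ) (i j : ι) :
    q φ * q (cc i (of j)) * (q φ)⁻¹ ∈ BB q := by
  by_cases hij : i = j
  · subst hij; rw [cc_of_self, map_one, mul_one, mul_inv_cancel]; exact one_mem _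
  obtain ⟨m, m1, m2, m3, m4⟩ := h.move h4 hij p r
  rw [m4, ← map_inv, ← map_mul, ← map_mul, (hφ m m1 m2).cc]
  exact cc_mem_BB _ _

lemma kil_of_letter {m r : ι} (h : m ≠ r) : kil m (of r) = of r := kil_ne (Ne.symm h)

lemma KC.all_norm (h : KC q) (h4 : 4 ≤ Fintype.card ι) (x : MulAut (FreeGroup ι)) :
    q x ∈ Subgroup.normalizer (BB q : Set G) := by
  have hsp : ∀ σ : SP ι, ∀ a ∈ BB q, q (toAut σ) * a * (q (toAut σ))⁻¹ ∈ BB q := by
    intro σ
    apply conj_BB_of
    intro i j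
    rw [sp_cc]
    exact cc_mem_BB _ _
  have hrr : ∀ i w, q (rr i w) ∈ Subgroup.normalizer (BB q : Set G) := by
    intro i w
    induction w using FreeGroup.induction_on with
    | C1 => rw [map_one, map_one]; exact one_mem _
    | of j =>
      show q (rr i (of j)) ∈ _
      refine mem_norm_of_both (conj_BB_of (h.conj_pres h4 (p := i) (r := j) fun m m1 m2 =>
        pres_rr m1 (kil_of_letter m2))) ?_
      have := conj_BB_of (q := q) (g := q (rr i (of j)⁻¹)) (h.conj_pres h4 (p := i) (r := j)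
        fun m m1 m2 => pres_rr m1 (by rw [map_inv, kil_of_letter m2]))
      rw [map_inv, map_inv, inv_inv] at this
      exact this
    | inv_of j ih =>
      have ih' : q (rr i (of j)) ∈ Subgroup.normalizer (BB q : Set G) := ih
      show q (rr i (of j)⁻¹) ∈ _
      rw [map_inv, map_inv]
      exact inv_mem ih'
    | mul a b ha hb => rw [map_mul, map_mul]; exact mul_mem ha hb
  have hll : ∀ i w, q (ll i w) ∈ Subgroup.normalizer (BB q : Set G) := by
    intro i w
    have e : q (ll i w) = q (cc i w) * (q (rr i w))⁻¹ := by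
      rw [cc_eq, map_mul]; group
    rw [e]
    exact mul_mem (Subgroup.le_normalizer (cc_mem_BB _ _)) (inv_mem (hrr i w))
  have h1 : (Subgroup.normalizer (BB q : Set G)).comap q = ⊤ := by
    apply gen_top
    · intro σ
      refine mem_norm_of_both (hsp σ) ?_
      have := hsp σ⁻¹
      rw [map_inv, map_inv, inv_inv] at this
      exact this
    · exact hrr
    · exact hll
  have h2 : x ∈ (Subgroup.normalizer (BB q : Set G)).comap q := by rw [h1]; trivial
  exact h2

end kc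

section R

variable (ι) in
/-- The normal closure of the commutator transvections. -/
def RR : Subgroup (MulAut (FreeGroup ι)) :=
  Subgroup.normalClosure {x | ∃ i j k : ι, i ≠ j ∧ i ≠ k ∧ j ≠ k ∧ x = rr i ⁅of j, of k⁆}

instance RR_normal : (RR ι).Normal := Subgroup.normalClosure_normal

lemma mem_RR {i j k : ι} (h1 : i ≠ j) (h2 : i ≠ k) (h3 : j ≠ k) : rr i ⁅of j, of k⁆ ∈ RR ι :=
  Subgroup.subset_normalClosure ⟨i, j, k, h1, h2, h3, rfl⟩

lemma RR_le {X : Subgroup (MulAut (FreeGroup ι))} [X.Normal]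
    (h : ∀ i j k : ι, i ≠ j → i ≠ k → j ≠ k → rr i ⁅of j, of k⁆ ∈ X) : RR ι ≤ X := by
  apply Subgroup.normalClosure_le_normal
  rintro _ ⟨i, j, k, h1, h2, h3, rfl⟩
  exact h i j k h1 h2 h3

lemma RR_le_IA : RR ι ≤ IA (FreeGroup ι) := RR_le fun _ _ _ _ _ _ => rr_comm_mem_IA _ _ _

lemma KC_mk : KC (QuotientGroup.mk' (RR ι)) := fun _ _ _ h1 h2 h3 =>
  (QuotientGroup.eq_one_iff _).2 (mem_RR h1 h2 h3)

lemma mk_eq_one {X : Subgroup (MulAut (FreeGroup ι))} [X.Normal] {x : MulAut (FreeGroup ι)} :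
    QuotientGroup.mk' X x = 1 ↔ x ∈ X := QuotientGroup.eq_one_iff x

lemma mk_eq {X : Subgroup (MulAut (FreeGroup ι))} [X.Normal] {x y : MulAut (FreeGroup ι)} :
    QuotientGroup.mk' X x = QuotientGroup.mk' X y ↔ x⁻¹ * y ∈ X := QuotientGroup.eq

lemma rr_mem_RR (i : ι) (u v : FreeGroup ι) : rr i ⁅u, v⁆ ∈ RR ι :=
  mk_eq_one.1 (KC_mk.rr_one i u v)

lemma ll_mem_RR (i : ι) (u v : FreeGroup ι) : ll i ⁅u, v⁆ ∈ RR ι :=
  mk_eq_one.1 (KC_mk.ll_one i u v)

lemma cc_mem_RR (i : ι) (u v : FreeGroup ι) : cc i ⁅u, v⁆ ∈ RR ι :=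
  mk_eq_one.1 (KC_mk.cc_one i u v)

variable [Fintype ι]

variable (ι) in
/-- the preimage of `BB` -/
def KB : Subgroup (MulAut (FreeGroup ι)) :=
  (BB (QuotientGroup.mk' (RR ι))).comap (QuotientGroup.mk' (RR ι))

lemma KB_normal (h4 : 4 ≤ Fintype.card ι) : (KB ι).Normal := by
  refine ⟨fun n hn g => ?_⟩
  have h1 := KC_mk.all_norm h4 g
  rw [Subgroup.mem_normalizer_iff] at h1
  show QuotientGroup.mk' (RR ι) (g * n * g⁻¹) ∈ BB (QuotientGroup.mk' (RR ι))
  rw [map_mul, map_mul, map_inv]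
  exact (h1 _).1 hn

lemma KB_nice : Nice (KB ι) where
  ccm i w := cc_mem_BB i w
  rrm i u v := by
    show QuotientGroup.mk' (RR ι) (rr i ⁅u, v⁆) ∈ BB (QuotientGroup.mk' (RR ι))
    rw [KC_mk.rr_one]
    exact one_mem _
  iam := by
    have h0 : BB (QuotientGroup.mk' (RR ι)) ≤
        (IA (FreeGroup ι)).map (QuotientGroup.mk' (RR ι)) := by
      refine (Subgroup.closure_le _).2 ?_
      rintro _ ⟨i, j, rfl⟩
      exact ⟨_, cc_mem_IA i (of j), rfl⟩
    intro x hx
    obtain ⟨y, hy, hxy⟩ := h0 hx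
    have h1 : y⁻¹ * x ∈ RR ι := mk_eq.1 hxy
    have h2 := mul_mem hy (RR_le_IA h1)
    rwa [mul_inv_cancel_left] at h2

/-- The image of `IA` modulo the commutator transvections is generated by the partial
conjugations. -/
theorem IA_BB (h4 : 4 ≤ Fintype.card ι) {δ : MulAut (FreeGroup ι)} (hδ : δ ∈ IA (FreeGroup ι)) :
    QuotientGroup.mk' (RR ι) δ ∈ BB (QuotientGroup.mk' (RR ι)) := by
  have := KB_normal (ι := ι) h4
  exact IA_le KB_nice hδ

/-- a subgroup which contains the commutator transvections and the partial conjugations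
contains `IA` -/
theorem IA_le_of (h4 : 4 ≤ Fintype.card ι) {D : Subgroup (MulAut (FreeGroup ι))}
    (h1 : RR ι ≤ D) (h2 : ∀ i j : ι, cc i (of j) ∈ D) : IA (FreeGroup ι) ≤ D := by
  intro δ hδ
  have h3 : BB (QuotientGroup.mk' (RR ι)) ≤ D.map (QuotientGroup.mk' (RR ι)) := by
    refine (Subgroup.closure_le _).2 ?_
    rintro _ ⟨i, j, rfl⟩
    exact ⟨_, h2 i j, rfl⟩
  obtain ⟨y, hy, hxy⟩ := h3 (IA_BB h4 hδ)
  have h4 : y⁻¹ * δ ∈ RR ι := mk_eq.1 hxy
  have h5 := mul_mem hy (h1 h4)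
  rwa [mul_inv_cancel_left] at h5

theorem IA_comm_le (h4 : 4 ≤ Fintype.card ι) : ⁅IA (FreeGroup ι), IA (FreeGroup ι)⁆ ≤ RR ι := by
  rw [Subgroup.commutator_le]
  intro a ha b hb
  rw [← mk_eq_one, map_commutatorElement, commutatorElement_eq_one_iff_commute]
  exact KC_mk.BB_comm h4 (IA_BB h4 ha) (IA_BB h4 hb)

end R

end Pool.Agent.V5helper31.CF
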