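import Pool.Agent.V5helper31.CF.Rules

set_option autoImplicit false
set_option linter.unusedSectionVars false

/-! A quotient `RR / X` which is an elementary abelian `p`-group with fewer than
`n (n - 1 choose 2)` generators is trivial. -/

namespace Pool.Agent.V5helper31.CF

open Pool.Agent.Helper460_OutF Pool.Agent.Helper460_CSP
open FreeGroup (of)
open scoped commutatorElement

section lin

variable {K V P : Type*} [Field K] [AddCommGroup V] [Module K V] [Fintype P]

lemma linInd (b : P → V) (h : ∀ x, ∃ L : V →ₗ[K] V, (∀ y, y ≠ x → L (b y) = 0) ∧ L (b x) ≠ 0) :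
    LinearIndependent K b := by
  rw [Fintype.linearIndependent_iff]
  intro g hg x
  obtain ⟨L, h1, h2⟩ := h x
  have h3 := congrArg L hg
  rw [map_sum, map_zero, Finset.sum_eq_single x] at h3
  · rw [map_smul] at h3
    exact (smul_eq_zero.1 h3).resolve_right h2
  · intro y _ hy
    rw [map_smul, h1 y hy, smul_zero]
  · intro h4
    exact absurd (Finset.mem_univ _) h4

end lin

section card

variable (ι : Type) [DecidableEq ι] [Fintype ι]

/-- the index set -/
abbrev PP : Type := (i : ι) × {s : Finset ι // s ∈ Finset.powersetCard 2 (Finset.univ.erase i)}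

lemma card_PP : Fintype.card (PP ι) = Fintype.card ι * (Fintype.card ι - 1).choose 2 := by
  rw [Fintype.card_sigma]
  calc _ = ∑ _i : ι, (Fintype.card ι - 1).choose 2 := Finset.sum_congr rfl fun i _ => by
        rw [Fintype.card_coe, Finset.card_powersetCard,
          Finset.card_erase_of_mem (Finset.mem_univ _), Finset.card_univ]
    _ = _ := by rw [Finset.sum_const, Finset.card_univ, smul_eq_mul]

end card

variable {ι : Type} [DecidableEq ι] [Fintype ι]

section grp

variable {G : Type} [Group G] (H : Subgroup G) [H.Normal]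

/-- the subgroup is commutative -/
class CM : Prop where
  comm : ∀ a b : H, a * b = b * a

instance CMgrp [CM H] : CommGroup H := { (inferInstance : Group H) with mul_comm := CM.comm }

/-- conjugation as an endomorphism of the additive group -/
def Cj [CM H] (g : G) : AddMonoid.End (Additive H) :=
  MonoidHom.toAdditive (MulAut.conjNormal g : MulAut H).toMonoidHom

variable [CM H]

/-- conjugation minus identity -/
def TT (g : G) : AddMonoid.End (Additive H) := Cj H g - 1

lemma TT_eq {g : G} {x y : Additive H}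
    (h : g * (Additive.toMul x : H) * g⁻¹ = (Additive.toMul y : H) * (Additive.toMul x : H)) :
    TT H g x = y := by
  have h1 : Cj H g x = y + x := by
    apply Additive.toMul.injective
    apply Subtype.ext
    show ((MulAut.conjNormal g (Additive.toMul x) : H) : G) = _
    rw [MulAut.conjNormal_apply]
    exact h
  show Cj H g x - x = y
  rw [h1, add_sub_cancel_right]

lemma Cj_mul (g h : G) : Cj H g * Cj H h = Cj H (g * h) := by
  apply AddMonoidHom.ext
  intro x
  apply Additive.toMul.injective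
  apply Subtype.ext
  show ((MulAut.conjNormal g (MulAut.conjNormal h (Additive.toMul x)) : H) : G) =
    ((MulAut.conjNormal (g * h) (Additive.toMul x) : H) : G)
  rw [map_mul]
  rfl

lemma TT_comm {g h : G} (hgh : g * h = h * g) : TT H g * TT H h = TT H h * TT H g := by
  unfold TT
  have : Cj H g * Cj H h = Cj H h * Cj H g := by rw [Cj_mul, Cj_mul, hgh]
  simp only [sub_mul, mul_sub, one_mul, mul_one, this]
  abel

end grp

section main

variable {X : Subgroup (MulAut (FreeGroup ι))} [X.Normal]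


variable (X) in
/-- the image of `RR` -/
abbrev HH : Subgroup (MulAut (FreeGroup ι) ⧸ X) := (RR ι).map (QuotientGroup.mk' X)

instance HH_normal : (HH X).Normal :=
  RR_normal.map _ (QuotientGroup.mk'_surjective X)

lemma HH_comm (hc : ∀ r ∈ RR ι, ∀ s ∈ RR ι, ⁅r, s⁆ ∈ X) : CM (HH X) := by
  refine ⟨?_⟩
  rintro ⟨_, r, hr, rfl⟩ ⟨_, s, hs, rfl⟩
  exact Subtype.ext (comm_iff.1 (hc r hr s hs)).eq

variable (X) in
/-- the class of the commutator transvection -/
def bb (i j k : ι) : Additive (HH X) :=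
  Additive.ofMul ⟨(QuotientGroup.mk' X) (rr i ⁅of j, of k⁆), ⟨_, rr_mem_RR _ _ _, rfl⟩⟩

variable [CM (HH X)] (h4 : 4 ≤ Fintype.card ι)
  (hIA : ⁅IA (FreeGroup ι), RR ι⁆ ≤ X)

variable (X) in
/-- the operators -/
def Op (p r : ι) : AddMonoid.End (Additive (HH X)) := TT (HH X) ((QuotientGroup.mk' X) (rr p (of r)))

lemma bb_swap (i j k : ι) : bb X i k j = - bb X i j k := by
  apply Additive.toMul.injective
  apply Subtype.ext
  exact swapX i (of j) (of k)

include h4 hIA

omit h4 hIA in
lemma opA {i j k p r : ι} (h1 : i ≠ p) (h2 : i ≠ r) (h3 : j ≠ p) (h5 : k ≠ p) :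
    Op X p r (bb X i j k) = 0 := by
  apply TT_eq
  show (QuotientGroup.mk' X) (rr p (of r)) * (QuotientGroup.mk' X) (rr i ⁅of j, of k⁆) * ((QuotientGroup.mk' X) (rr p (of r)))⁻¹ =
    1 * (QuotientGroup.mk' X) (rr i ⁅of j, of k⁆)
  rw [one_mul]
  exact ruleA h1 h2 h3 h5

lemma opB {i k p r : ι} (h1 : i ≠ p) (h2 : i ≠ r) (h3 : p ≠ r) (h5 : k ≠ p) :
    Op X p r (bb X i p k) = bb X i r k := by
  apply TT_eq
  exact ruleB h4 hIA h1 h2 h3 h5

lemma opB' {i j p r : ι} (h1 : i ≠ p) (h2 : i ≠ r) (h3 : p ≠ r) (h5 : j ≠ p) :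
    Op X p r (bb X i j p) = bb X i j r := by
  apply TT_eq
  exact ruleB' h4 hIA h1 h2 h3 h5

lemma opC (p r j k : ι) : Op X p r (bb X p j k) = 0 := by
  apply TT_eq
  show (QuotientGroup.mk' X) (rr p (of r)) * (QuotientGroup.mk' X) (rr p ⁅of j, of k⁆) * ((QuotientGroup.mk' X) (rr p (of r)))⁻¹ =
    1 * (QuotientGroup.mk' X) (rr p ⁅of j, of k⁆)
  rw [one_mul]
  exact ruleC h4 hIA p r j k

lemma opD {j k p r : ι} (hpr : p ≠ r) (h1 : j ≠ p) (h2 : k ≠ p) (h3 : j ≠ r) (h5 : k ≠ r) :
    Op X p r (bb X r j k) = - bb X p j k := by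
  apply TT_eq
  exact ruleD h4 hIA hpr h1 h2 h3 h5

omit h4 hIA in
lemma op_comm {p r p' r' : ι} (h1 : p ≠ p') (h2 : p ≠ r') (h3 : p' ≠ r) :
    Op X p r * Op X p' r' = Op X p' r' * Op X p r := by
  apply TT_comm
  rw [← map_mul, ← map_mul]
  congr 1
  have := (pres_rr (i := p') (p := p) (Ne.symm h1) (kil_of_letter h3)).rr (of r')
  rw [rr_ne (Ne.symm h2)] at this
  rwa [mul_inv_eq_iff_eq_mul] at this

/-- The operator which isolates `bb i j k`. -/
lemma isolate {i j k a u v : ι} (hij : i ≠ j) (hik : i ≠ k) (hjk : j ≠ k)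
    (ai : a ≠ i) (aj : a ≠ j) (ak : a ≠ k) (ui : u ≠ i) (uj : u ≠ j) (uk : u ≠ k) (ua : u ≠ a)
    (vi : v ≠ i) (vj : v ≠ j) (vk : v ≠ k) (va : v ≠ a) (vu : v ≠ u) :
    (∀ i' j' k' : ι, i' ≠ j' → i' ≠ k' → j' ≠ k' →
      ¬ (i' = i ∧ ((j' = j ∧ k' = k) ∨ (j' = k ∧ k' = j))) →
      (Op X j a * (Op X a i * (Op X j u * Op X k v))) (bb X i' j' k') = 0) ∧
    (Op X j a * (Op X a i * (Op X j u * Op X k v))) (bb X i j k) = bb X j u v := by
  have c12 : Op X a i * Op X j u = Op X j u * Op X a i := op_comm aj (Ne.symm ua) (Ne.symm hij)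
  have c13 : Op X a i * Op X k v = Op X k v * Op X a i := op_comm ak (Ne.symm va) (Ne.symm hik)
  have c23 : Op X j u * Op X k v = Op X k v * Op X j u := op_comm hjk (Ne.symm vj) (Ne.symm uk)
  set T1 := Op X a i with hT1
  set T2 := Op X j u with hT2
  set T3 := Op X k v with hT3
  set T4 := Op X j a with hT4
  have hap : ∀ (f g : AddMonoid.End (Additive (HH X))) (x : Additive (HH X)),
      (f * g) x = f (g x) := fun _ _ _ => rfl
  -- the six orders
  have o1 : T1 * (T2 * T3) = T2 * T3 * T1 := by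
    rw [← mul_assoc, c12, mul_assoc, c13, ← mul_assoc]
  have o2 : T1 * (T2 * T3) = T1 * T3 * T2 := by rw [c23, ← mul_assoc]
  constructor
  · intro i' j' k' h1 h2 h3 hne
    -- killed by one operator
    by_cases k2 : T2 (bb X i' j' k') = 0
    · rw [o2, hap, hap, k2, map_zero, map_zero]
    by_cases k3 : T3 (bb X i' j' k') = 0
    · rw [hap, hap, hap, k3, map_zero, map_zero, map_zero]
    by_cases k1 : T1 (bb X i' j' k') = 0
    · rw [o1, hap, hap, k1, map_zero, map_zero]
    have n2 : i' ≠ j := by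
      rintro rfl; exact k2 (opC h4 hIA _ _ _ _)
    have n3 : i' ≠ k := by
      rintro rfl; exact k3 (opC h4 hIA _ _ _ _)
    have n1 : i' ≠ a := by
      rintro rfl; exact k1 (opC h4 hIA _ _ _ _)
    have m2 : i' = u ∨ j' = j ∨ k' = j := by
      by_contra hc
      push Not at hc
      exact k2 (opA n2 hc.1 hc.2.1 hc.2.2)
    have m3 : i' = v ∨ j' = k ∨ k' = k := by
      by_contra hc
      push Not at hc
      exact k3 (opA n3 hc.1 hc.2.1 hc.2.2)
    have m1 : i' = i ∨ j' = a ∨ k' = a := by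
      by_contra hc
      push Not at hc
      exact k1 (opA n1 hc.1 hc.2.1 hc.2.2)
    -- the two surviving cases
    have caseU : ∀ x y : ι, x = k → y = a →
        (T4 * (T1 * (T2 * T3))) (bb X u x y) = 0 := by
      rintro x y rfl rfl
      rw [show T1 * (T2 * T3) = T1 * (T3 * T2) by rw [c23], hap, hap, hap, hT2,
        opD h4 hIA (Ne.symm uj) (Ne.symm hjk) aj (Ne.symm uk) (Ne.symm ua), map_neg, map_neg,
        map_neg, hT3, opB h4 hIA hjk (Ne.symm vj) (Ne.symm vk) ak, hT1,
        opB' h4 hIA (Ne.symm aj) (Ne.symm hij) ai va, hT4, opC h4 hIA, neg_zero]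
    have caseV : ∀ x y : ι, x = j → y = a →
        (T4 * (T1 * (T2 * T3))) (bb X v x y) = 0 := by
      rintro x y rfl rfl
      rw [hap, hap, hap, hT3,
        opD h4 hIA (Ne.symm vk) hjk ak (Ne.symm vj) (Ne.symm va), map_neg, map_neg,
        map_neg, hT2, opB h4 hIA (Ne.symm hjk) (Ne.symm uk) (Ne.symm uj) aj, hT1,
        opB' h4 hIA (Ne.symm ak) (Ne.symm hik) ai ua, hT4,
        opA (Ne.symm hjk) (Ne.symm ak) uj hij, neg_zero]
    rcases m2 with rfl | m2
    · -- i' = u
      have m3' := m3.resolve_left (Ne.symm vu)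
      have m1' := m1.resolve_left ui
      rcases m3' with rfl | rfl
      · exact caseU _ _ rfl (m1'.resolve_left (Ne.symm ak))
      · have e := m1'.resolve_right (Ne.symm ak)
        rw [bb_swap, map_neg, caseU _ _ rfl e, neg_zero]
    rcases m3 with rfl | m3
    · have m1' := m1.resolve_left vi
      rcases m2 with rfl | rfl
      · exact caseV _ _ rfl (m1'.resolve_left (Ne.symm aj))
      · have e := m1'.resolve_right (Ne.symm aj)
        rw [bb_swap, map_neg, caseV _ _ rfl e, neg_zero]
    rcases m1 with rfl | m1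
    · exfalso
      apply hne
      refine ⟨rfl, ?_⟩
      rcases m2 with rfl | rfl
      · exact Or.inl ⟨rfl, m3.resolve_left hjk⟩
      · exact Or.inr ⟨m3.resolve_right hjk, rfl⟩
    · exfalso
      rcases m1 with rfl | rfl
      · have e2 := m2.resolve_left aj
        have e3 := m3.resolve_left ak
        exact hjk (e2 ▸ e3)
      · have e2 := m2.resolve_right aj
        have e3 := m3.resolve_right ak
        exact hjk (e2 ▸ e3)
  · rw [o1, hap, hap, hap, hT1,
      opD h4 hIA ai (Ne.symm aj) (Ne.symm ak) (Ne.symm hij) (Ne.symm hik), map_neg, map_neg,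
      map_neg, hT3, opB' h4 hIA ak (Ne.symm va) (Ne.symm vk) hjk, hT2,
      opB h4 hIA aj (Ne.symm ua) (Ne.symm uj) vj, hT4,
      opD h4 hIA (Ne.symm aj) uj vj ua va, neg_neg]

end main

end Pool.Agent.V5helper31.CF
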