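import Pool.Agent.V5helper31.CF.Dim

set_option autoImplicit false
set_option linter.unusedSectionVars false

namespace Pool.Agent.V5helper31.CF

open Pool.Agent.Helper460_OutF Pool.Agent.Helper460_CSP
open FreeGroup (of)
open scoped commutatorElement

variable {ι : Type} [DecidableEq ι] [Fintype ι]

lemma comm_of_IA {X : Subgroup (MulAut (FreeGroup ι))}
    (hIA : ⁅IA (FreeGroup ι), RR ι⁆ ≤ X) : ∀ r ∈ RR ι, ∀ s ∈ RR ι, ⁅r, s⁆ ∈ X :=
  fun _ hr _ hs => hIA (Subgroup.commutator_mem_commutator (RR_le_IA hr) hs)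

theorem dimX (h6 : 6 ≤ Fintype.card ι) {X : Subgroup (MulAut (FreeGroup ι))} [X.Normal]
    (hIA : ⁅IA (FreeGroup ι), RR ι⁆ ≤ X) {p : ℕ} [Fact p.Prime]
    (hp : ∀ r ∈ RR ι, r ^ p ∈ X) {d : ℕ}
    (hd : d < Fintype.card ι * (Fintype.card ι - 1).choose 2)
    (g : Fin d → MulAut (FreeGroup ι)) (hg : ∀ i, g i ∈ RR ι)
    (hgen : RR ι ≤ Subgroup.closure (Set.range g) ⊔ X) : RR ι ≤ X := by
  have hc := comm_of_IA hIA
  have hCM : CM (HH X) := HH_comm hc
  by_contra hne
  have hpow : ∀ y : HH X, y ^ p = 1 := by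
    rintro ⟨y, r, hr, rfl⟩
    apply Subtype.ext
    show (QuotientGroup.mk' X r) ^ p = 1
    rw [← map_pow]
    exact mk_eq_one.2 (hp r hr)
  let _ : Module (ZMod p) (Additive (HH X)) := AddCommGroup.zmodModule (n := p)
    fun x => congrArg Additive.ofMul (hpow x.toMul)
  have hex : ∀ x : PP ι, ∃ j k : ι, j ≠ k ∧ x.2.1 = {j, k} := fun x =>
    Finset.card_eq_two.1 (Finset.mem_powersetCard.1 x.2.2).2
  choose j k hjk hs using hex
  have hj : ∀ x : PP ι, j x ∈ x.2.1 := fun x => by rw [hs]; simp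
  have hk : ∀ x : PP ι, k x ∈ x.2.1 := fun x => by rw [hs]; simp
  have hij : ∀ x : PP ι, x.1 ≠ j x := fun x h =>
    Finset.notMem_erase x.1 Finset.univ (h ▸ (Finset.mem_powersetCard.1 x.2.2).1 (hj x) :
      x.1 ∈ Finset.univ.erase x.1)
  have hik : ∀ x : PP ι, x.1 ≠ k x := fun x h =>
    Finset.notMem_erase x.1 Finset.univ (h ▸ (Finset.mem_powersetCard.1 x.2.2).1 (hk x) :
      x.1 ∈ Finset.univ.erase x.1)
  let b : PP ι → Additive (HH X) := fun x => bb X x.1 (j x) (k x)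
  have hli : LinearIndependent (ZMod p) b := by
    apply linInd
    intro x
    obtain ⟨a, a1, a2, a3⟩ := out3 (by omega) x.1 (j x) (k x)
    obtain ⟨u, u1, u2, u3, u4⟩ := out4 (by omega) x.1 (j x) (k x) a
    obtain ⟨v, v1, v2, v3, v4, v5⟩ := out5 h6 x.1 (j x) (k x) a u
    obtain ⟨i1, i2⟩ := isolate (X := X) (by omega) hIA (hij x) (hik x) (hjk x) a1 a2 a3 u1 u2 u3 u4
      v1 v2 v3 v4 v5
    refine ⟨AddMonoidHom.toZModLinearMap p
      (Op X (j x) a * (Op X a x.1 * (Op X (j x) u * Op X (k x) v))), ?_, ?_⟩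
    · intro y hy
      refine i1 y.1 (j y) (k y) (hij y) (hik y) (hjk y) ?_
      rintro ⟨e1, e2⟩
      apply hy
      have e3 : y.2.1 = x.2.1 := by
        rw [hs, hs]
        rcases e2 with ⟨e2, e3⟩ | ⟨e2, e3⟩
        · rw [e2, e3]
        · rw [e2, e3, Finset.pair_comm]
      obtain ⟨y1, y2, y3⟩ := y
      obtain ⟨x1, x2, x3⟩ := x
      simp only at e1 e3
      subst e1
      subst e3
      rfl
    · intro h0
      have h1 : bb X (j x) u v = 0 := by
        rw [← i2]
        exact h0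
      have h2 : QuotientGroup.mk' X (rr (j x) ⁅of u, of v⁆) = 1 :=
        congrArg Subtype.val (congrArg Additive.toMul h1)
      exact hne (one_all (Ne.symm u2) (Ne.symm v2) (Ne.symm v5) (mk_eq_one.1 h2))
  let gg : Fin d → Additive (HH X) := fun i =>
    Additive.ofMul ⟨QuotientGroup.mk' X (g i), ⟨g i, hg i, rfl⟩⟩
  have hspan : ∀ y : HH X, Additive.ofMul y ∈ Submodule.span (ZMod p) (Set.range gg) := by
    rintro ⟨_, r, hr, rfl⟩
    -- the set of elements whose class is in the span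
    have key : ∀ s ∈ Subgroup.closure (Set.range g), ∃ hs : s ∈ RR ι,
        (Additive.ofMul (⟨QuotientGroup.mk' X s, ⟨s, hs, rfl⟩⟩ : HH X)) ∈
          Submodule.span (ZMod p) (Set.range gg) := by
      intro s hs
      induction hs using Subgroup.closure_induction with
      | mem s hs =>
        obtain ⟨i, rfl⟩ := hs
        exact ⟨hg i, Submodule.subset_span ⟨i, rfl⟩⟩
      | one =>
        refine ⟨one_mem _, ?_⟩
        have : (Additive.ofMul (⟨QuotientGroup.mk' X 1, ⟨1, one_mem _, rfl⟩⟩ : HH X)) = 0 := by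
          apply Additive.toMul.injective
          apply Subtype.ext
          exact map_one _
        rw [this]
        exact Submodule.zero_mem _
      | mul s t _ _ h1 h2 =>
        obtain ⟨hs, h1⟩ := h1
        obtain ⟨ht, h2⟩ := h2
        refine ⟨mul_mem hs ht, ?_⟩
        have h3 := Submodule.add_mem _ h1 h2
        have h4 : (⟨QuotientGroup.mk' X (s * t), ⟨s * t, mul_mem hs ht, rfl⟩⟩ : HH X) =
            (⟨QuotientGroup.mk' X s, ⟨s, hs, rfl⟩⟩ : HH X) *
              ⟨QuotientGroup.mk' X t, ⟨t, ht, rfl⟩⟩ := Subtype.ext (map_mul _ _ _)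
        rw [h4]
        exact h3
      | inv s _ h1 =>
        obtain ⟨hs, h1⟩ := h1
        refine ⟨inv_mem hs, ?_⟩
        have h3 := Submodule.neg_mem _ h1
        have h4 : (⟨QuotientGroup.mk' X s⁻¹, ⟨s⁻¹, inv_mem hs, rfl⟩⟩ : HH X) =
            (⟨QuotientGroup.mk' X s, ⟨s, hs, rfl⟩⟩ : HH X)⁻¹ := Subtype.ext (map_inv _ _)
        rw [h4]
        exact h3
    obtain ⟨s, hs, t, ht, hst⟩ := Subgroup.mem_sup_of_normal_right.1 (hgen hr)
    obtain ⟨hs', h1⟩ := key s hs
    have e : (⟨QuotientGroup.mk' X r, ⟨r, hr, rfl⟩⟩ : HH X) =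
        ⟨QuotientGroup.mk' X s, ⟨s, hs', rfl⟩⟩ := by
      apply Subtype.ext
      show QuotientGroup.mk' X r = QuotientGroup.mk' X s
      rw [← hst, map_mul, mk_eq_one.2 ht, mul_one]
    rw [e]
    exact h1
  have hspan2 : ∀ x : Additive (HH X), x ∈ Submodule.span (ZMod p) (Set.range gg) :=
    fun x => hspan (Additive.toMul x)
  have hspan : Submodule.span (ZMod p) (Set.range gg) = ⊤ := by
    ext x
    exact ⟨fun _ => Submodule.mem_top, fun _ => hspan2 x⟩
  have hfin : Module.Finite (ZMod p) (Additive (HH X)) :=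
    ⟨Submodule.fg_def.2 ⟨Set.range gg, Set.finite_range gg, hspan⟩⟩
  have h1 := hli.fintype_card_le_finrank
  have h2 := finrank_range_le_card (R := ZMod p) gg
  rw [Set.finrank, hspan, finrank_top, Fintype.card_fin] at h2
  rw [card_PP] at h1
  omega

/-- **Small elementary abelian quotients of `RR` are trivial.** -/
theorem small_abelian (h6 : 6 ≤ Fintype.card ι) {X : Subgroup (MulAut (FreeGroup ι))} [X.Normal]
    (hX : X ≤ RR ι) (hc : ∀ r ∈ RR ι, ∀ s ∈ RR ι, ⁅r, s⁆ ∈ X) {p : ℕ} [Fact p.Prime]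
    (hp : ∀ r ∈ RR ι, r ^ p ∈ X) {d : ℕ}
    (hd : d < Fintype.card ι * (Fintype.card ι - 1).choose 2)
    (g : Fin d → MulAut (FreeGroup ι)) (hg : ∀ i, g i ∈ RR ι)
    (hgen : RR ι ≤ Subgroup.closure (Set.range g) ⊔ X) : RR ι ≤ X := by
  apply unip (by omega) hX hc
  have : (IA (FreeGroup ι)).Normal := inferInstance
  exact dimX h6 (X := X ⊔ ⁅IA (FreeGroup ι), RR ι⁆) le_sup_right
    (fun r hr => Subgroup.mem_sup_left (hp r hr)) hd g hg
    (hgen.trans (sup_le_sup_left le_sup_left _))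

end Pool.Agent.V5helper31.CF
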