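import Pool.Agent.V5helper31.CF.Base
import Pool.Agent.W7h60.QQ.Fin

set_option autoImplicit false
set_option linter.unusedSectionVars false

/-! `RR` is the kernel of the contraction `IA_n → ℤ^n`. -/

namespace Pool.Agent.V5helper31.CF

open Pool.Agent.Helper460_OutF Pool.Agent.Helper460_CSP
open FreeGroup (of)
open scoped commutatorElement
open Pool.Agent.Helper156.OF (eAut Lt gl_true nv)
open Pool.Agent.W7h60.QQ (J g0 kap sgm mg ab ab_mul ab_inv ab_one SS J_one J_mul det_mul' g0_one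
  J_fst det_R det_L kap_mul G_val mg_lcs mg_of g0_mul)

variable {ι : Type} [DecidableEq ι] [Fintype ι]

lemma ab_comm {x : FreeGroup ι} (h : Abelianization.of x = 1) : ab (R := ℤ) x = 0 := by
  let f : FreeGroup ι →* Multiplicative (ι → ℤ) :=
    { toFun := fun x => Multiplicative.ofAdd (ab (R := ℤ) x)
      map_one' := by rw [ab_one]; rfl
      map_mul' := fun x y => by rw [ab_mul]; rfl }
  have h1 : Abelianization.lift f (Abelianization.of x) = f x := Abelianization.lift_apply_of _ _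
  rw [h, map_one] at h1
  exact (congrArg Multiplicative.toAdd h1).symm

lemma ab_IA {δ : MulAut (FreeGroup ι)} (h : δ ∈ IA (FreeGroup ι)) (x : FreeGroup ι) :
    ab (R := ℤ) (δ x) = ab x := by
  have h1 : Abelianization.of (δ x * x⁻¹) = 1 := by
    rw [map_mul, map_inv, h x, mul_inv_cancel]
  have h2 := ab_comm h1
  rw [ab_mul, ab_inv] at h2
  exact add_neg_eq_zero.1 h2

lemma g0_IA {δ : MulAut (FreeGroup ι)} (h : δ ∈ IA (FreeGroup ι)) : g0 (R := ℤ) δ = 1 := by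
  rw [← g0_one]
  apply Matrix.ext
  intro i j
  show ab (R := ℤ) (δ (of i)) j = ab (R := ℤ) (of i) j
  rw [ab_IA h]

lemma sgm_one (x : SS ι ℤ) : sgm (1 : Matrix ι ι ℤ) x = x := by
  unfold sgm
  have : Matrix.vecMulLinear (1 : Matrix ι ι ℤ) = LinearMap.id := by
    apply LinearMap.ext
    intro v
    show Matrix.vecMul v 1 = v
    exact Matrix.vecMul_one v
  rw [this, TrivSqZeroExt.map_id]
  rfl

/-- the kernel of the crossed homomorphism `ψ ↦ det (J ψ)` -/
def S1 (ι : Type) [DecidableEq ι] [Fintype ι] : Subgroup (MulAut (FreeGroup ι)) where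
  carrier := {ψ | (J (R := ℤ) ψ).det = 1}
  mul_mem' := by
    intro a b ha hb
    show (J (R := ℤ) (a * b)).det = 1
    rw [det_mul', show (J (R := ℤ) a).det = 1 from ha, show (J (R := ℤ) b).det = 1 from hb,
      map_one, mul_one]
  one_mem' := by
    show (J (R := ℤ) 1).det = 1
    rw [J_one, Matrix.det_one]
  inv_mem' := by
    intro a ha
    show (J (R := ℤ) a⁻¹).det = 1
    have h := det_mul' (R := ℤ) a⁻¹ a
    rw [inv_mul_cancel, J_one, Matrix.det_one, show (J (R := ℤ) a).det = 1 from ha, map_one,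
      one_mul] at h
    exact h.symm

/-- its restriction to `IA` -/
def N0 (ι : Type) [DecidableEq ι] [Fintype ι] : Subgroup (MulAut (FreeGroup ι)) :=
  S1 ι ⊓ IA (FreeGroup ι)

instance N0_normal : (N0 ι).Normal := by
  refine ⟨?_⟩
  rintro r ⟨h1, h2⟩ g
  refine ⟨?_, (IA_normal (FreeGroup ι)).conj_mem _ h2 g⟩
  show (J (R := ℤ) (g * r * g⁻¹)).det = 1
  have h3 : (J (R := ℤ) r).det = 1 := h1
  rw [mul_assoc, det_mul', det_mul', g0_IA h2, sgm_one, h3, mul_one, ← det_mul', mul_inv_cancel,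
    J_one, Matrix.det_one]

lemma rr_eAut {i j : ι} (h : i ≠ j) : rr i (of j) = eAut ((i, true) : Lt ι) (j, true) := by
  rw [eAut_eq _ _ (show ((i, true) : Lt ι).1 ≠ (j, true).1 from h), if_pos rfl, gl_true]

lemma ll_eAut {i j : ι} (h : i ≠ j) : ll i (of j) = eAut ((i, false) : Lt ι) (j, true) := by
  rw [eAut_eq _ _ (show ((i, false) : Lt ι).1 ≠ (j, true).1 from h), if_neg (by simp), gl_true]

lemma rr_S1 {i j : ι} (h : i ≠ j) : rr i (of j) ∈ S1 ι := by
  rw [rr_eAut h]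
  exact det_R h

theorem RR_le_N0 : RR ι ≤ N0 ι := by
  apply RR_le
  intro i j k h1 h2 h3
  refine ⟨?_, rr_comm_mem_IA _ _ _⟩
  have h4 : rr i ⁅of j, of k⁆ ∈ S1 ι := by
    rw [map_commutatorElement, commutatorElement_def]
    exact mul_mem (mul_mem (mul_mem (rr_S1 h1) (rr_S1 h2)) (inv_mem (rr_S1 h1)))
      (inv_mem (rr_S1 h2))
  exact h4

lemma fst_IA {δ : MulAut (FreeGroup ι)} (h : δ ∈ IA (FreeGroup ι)) :
    (J (R := ℤ) δ).det.fst = 1 := by
  have h1 : (J (R := ℤ) δ).det.fst = (g0 (R := ℤ) δ).det := by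
    have := RingHom.map_det (TrivSqZeroExt.fstHom ℤ ℤ (ι → ℤ)).toRingHom (J (R := ℤ) δ)
    refine this.trans ?_
    congr 1
  rw [h1, g0_IA h, Matrix.det_one]

/-- the contraction on `IA` -/
noncomputable def kz (δ : MulAut (FreeGroup ι)) : ι → ℤ := kap (R := ℤ) δ

lemma kz_mul {δ ε : MulAut (FreeGroup ι)} (hδ : δ ∈ IA (FreeGroup ι))
    (hε : ε ∈ IA (FreeGroup ι)) : kz (δ * ε) = kz δ + kz ε := by
  unfold kz
  rw [kap_mul δ ε (fst_IA hδ) (fst_IA hε), G_val, g0_IA hδ, Matrix.transpose_one,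
    Matrix.one_mulVec]

lemma kz_N0 {δ : MulAut (FreeGroup ι)} (h : δ ∈ N0 ι) : kz δ = 0 := by
  have : (J (R := ℤ) δ).det = 1 := h.1
  show (J (R := ℤ) δ).det.snd = 0
  rw [this]
  rfl

lemma kz_cc {i j : ι} (h : i ≠ j) : kz (cc i (of j)) = -Pi.single j 1 := by
  rw [cc_eq]
  unfold kz kap
  rw [rr_eAut h, ll_eAut h, det_mul', det_R h, map_one, one_mul, det_L h]
  simp

lemma kz_one : kz (1 : MulAut (FreeGroup ι)) = 0 := kz_N0 (one_mem _)

lemma kz_inv {δ : MulAut (FreeGroup ι)} (hδ : δ ∈ IA (FreeGroup ι)) : kz δ⁻¹ = - kz δ := by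
  have h := kz_mul hδ (inv_mem hδ)
  rw [mul_inv_cancel, kz_one] at h
  exact (neg_eq_of_add_eq_zero_right h.symm).symm

section inj

/-- the commutative group structure -/
abbrev BBcomm (h4 : 4 ≤ Fintype.card ι) : CommGroup (BB (QuotientGroup.mk' (RR ι))) :=
  { (inferInstance : Group (BB (QuotientGroup.mk' (RR ι)))) with
    mul_comm := fun a b => Subtype.ext (KC_mk.BB_comm h4 a.2 b.2) }

/-- the inverses of the classes of the partial conjugations -/
noncomputable def Xk (h4 : 4 ≤ Fintype.card ι) (j : ι) : BB (QuotientGroup.mk' (RR ι)) :=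
  ⟨QuotientGroup.mk' (RR ι) (cc (out1 (by omega) j).choose (of j)), cc_mem_BB _ _⟩⁻¹

lemma Xk_eq (h4 : 4 ≤ Fintype.card ι) {i j : ι} (hij : i ≠ j) :
    ((Xk h4 j : BB (QuotientGroup.mk' (RR ι))) : MulAut (FreeGroup ι) ⧸ RR ι) =
      (QuotientGroup.mk' (RR ι) (cc i (of j)))⁻¹ := by
  have h1 := (out1 (ι := ι) (by omega) j).choose_spec
  show (QuotientGroup.mk' (RR ι) (cc (out1 (by omega) j).choose (of j)))⁻¹ = _
  generalize (out1 (ι := ι) (by omega) j).choose = m at *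
  congr 1
  by_cases h : m = i
  · rw [h]
  · exact KC_mk.indep h1 h (Ne.symm hij)

/-- the formula for the class of an element of `IA` -/
noncomputable def Dz (h4 : 4 ≤ Fintype.card ι) : Subgroup (MulAut (FreeGroup ι)) :=
  letI := BBcomm h4
  { carrier := {δ | δ ∈ IA (FreeGroup ι) ∧ QuotientGroup.mk' (RR ι) δ =
      (Rr (Xk h4) (kz δ) : BB (QuotientGroup.mk' (RR ι)))}
    mul_mem' := by
      rintro a b ⟨ha, ha'⟩ ⟨hb, hb'⟩
      refine ⟨mul_mem ha hb, ?_⟩
      rw [map_mul, ha', hb', kz_mul ha hb, Rr_add]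
      rfl
    one_mem' := by
      refine ⟨one_mem _, ?_⟩
      rw [map_one, kz_one, Rr_zero]
      rfl
    inv_mem' := by
      rintro a ⟨ha, ha'⟩
      refine ⟨inv_mem ha, ?_⟩
      rw [map_inv, ha', kz_inv ha, Rr_neg]
      rfl }

lemma mem_Dz (h4 : 4 ≤ Fintype.card ι) {δ : MulAut (FreeGroup ι)} : δ ∈ Dz h4 ↔
    δ ∈ IA (FreeGroup ι) ∧ QuotientGroup.mk' (RR ι) δ =
      ((@Rr _ _ _ (BBcomm h4) (Xk h4) (kz δ) : BB (QuotientGroup.mk' (RR ι))) :
        MulAut (FreeGroup ι) ⧸ RR ι) := Iff.rfl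

lemma IA_le_Dz (h4 : 4 ≤ Fintype.card ι) : IA (FreeGroup ι) ≤ Dz h4 := by
  let _ := BBcomm h4
  apply IA_le_of h4
  · intro r hr
    refine (mem_Dz h4).2 ⟨RR_le_IA hr, ?_⟩
    rw [mk_eq_one.2 hr, kz_N0 (RR_le_N0 hr), Rr_zero]
    rfl
  · intro i j
    by_cases hij : i = j
    · subst hij; rw [cc_of_self]; exact one_mem _
    · refine (mem_Dz h4).2 ⟨cc_mem_IA _ _, ?_⟩
      rw [kz_cc hij, Rr_neg, Rr_single]
      show _ = ((Xk h4 j : BB (QuotientGroup.mk' (RR ι))) : MulAut (FreeGroup ι) ⧸ RR ι)⁻¹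
      rw [Xk_eq h4 hij, inv_inv]

/-- **`RR` is the kernel of the contraction.** -/
theorem N0_eq (h4 : 4 ≤ Fintype.card ι) : N0 ι ≤ RR ι := by
  intro δ hδ
  let _ := BBcomm h4
  have h1 := ((mem_Dz h4).1 (IA_le_Dz h4 hδ.2)).2
  rw [kz_N0 hδ, Rr_zero] at h1
  exact mk_eq_one.1 h1

/-- automorphisms acting trivially modulo the third term of the lower central series -/
theorem gamma3_le (h4 : 4 ≤ Fintype.card ι) {δ : MulAut (FreeGroup ι)}
    (h : ∀ x, δ x * x⁻¹ ∈ (⊤ : Subgroup (FreeGroup ι)).lowerCentralSeries 2) : δ ∈ RR ι := by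
  apply N0_eq h4
  have hl : (⊤ : Subgroup (FreeGroup ι)).lowerCentralSeries 2 =
      ⁅⁅(⊤ : Subgroup (FreeGroup ι)), (⊤ : Subgroup (FreeGroup ι))⁆,
        (⊤ : Subgroup (FreeGroup ι))⁆ := rfl
  refine ⟨?_, ?_⟩
  · show (J (R := ℤ) δ).det = 1
    have : J (R := ℤ) δ = J 1 := by
      apply Matrix.ext
      intro i j
      show (mg (R := ℤ) (δ (of i))).v j = (mg (R := ℤ) (of i)).v j
      have h1 := mg_lcs (R := ℤ) (hl ▸ h (of i))
      rw [MonoidHom.mem_ker, map_mul, map_inv, mul_inv_eq_one] at h1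
      rw [h1]
    rw [this, J_one, Matrix.det_one]
  · intro x
    have h1 : δ x * x⁻¹ ∈ commutator (FreeGroup ι) := by
      have h2 : ⁅⁅(⊤ : Subgroup (FreeGroup ι)), (⊤ : Subgroup (FreeGroup ι))⁆,
          (⊤ : Subgroup (FreeGroup ι))⁆ ≤ ⁅(⊤ : Subgroup (FreeGroup ι)), ⊤⁆ :=
        Subgroup.commutator_mono le_top le_rfl
      exact h2 (hl ▸ h x)
    have h2 : Abelianization.of (δ x * x⁻¹) = 1 := by
      rw [← MonoidHom.mem_ker, Abelianization.ker_of]
      exact h1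
    rwa [map_mul, map_inv, mul_inv_eq_one] at h2

end inj

end Pool.Agent.V5helper31.CF
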