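import Pool.Agent.V5helper31.CF.Kap
import Pool.Agent.W7h60.QR.Ring
import Pool.Agent.W7h60.QR.Str

set_option autoImplicit false
set_option linter.unusedSectionVars false

/-! Small linear quotients of `Aut(F_n)` kill the commutator transvections. -/

namespace Pool.Agent.V5helper31.CF

open Pool.Agent.Helper460_OutF Pool.Agent.Helper460_CSP
open FreeGroup (of)
open scoped commutatorElement
open Pool.Agent.W7h60.QQ Pool.Agent.W7h60.QR Pool.Agent.Helper156.OF

universe u v

theorem lin_kills {n e : ℕ} (he : Bd n e) {A : Type u} [CommRing A] {M : Type v} [AddCommGroup M]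
    [Module A M] {g : Fin e → M} (hg : Submodule.span A (Set.range g) = ⊤)
    (f : MulAut (FreeGroup (Fin n)) →* (M ≃ₗ[A] M)) : RR (Fin n) ≤ f.ker := by
  apply RR_le
  intro i j k h1 h2 h3
  let ρ : MulAut (FreeGroup (Fin n)) →* Module.End A M :=
    (LinearEquiv.automorphismGroup.toLinearMapMonoidHom (R := A) (M := M)).comp f
  have hcard : Fintype.card (Fin n) = n := Fintype.card_fin n
  have h14 := he.card
  have H : DRel ρ := general he g hg ρ
  have S : SRel ρ := H.srel (by omega)
  have h5 := S.rho_MM (by omega) (x := ((i, true) : Lt (Fin n))) (y := (j, true)) (z := (k, true))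
    h1 h2 h3
  have h6 : rr i ⁅FreeGroup.of j, FreeGroup.of k⁆ =
      Pool.Agent.TH271.CU.MM eAut ((i, true) : Lt (Fin n)) (j, true) (k, true) := by
    rw [map_commutatorElement, rr_eAut h1, rr_eAut h2]
    rfl
  rw [← h6] at h5
  show f _ = 1
  apply LinearEquiv.ext
  intro v
  exact LinearMap.congr_fun h5 v

end Pool.Agent.V5helper31.CF
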