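import Pool.Agent.V5helper31.CF.Series
import Pool.Agent.V5helper31.CF.Lin
import Pool.Agent.Results.MP_181555_al.RationalHolonomy

set_option autoImplicit false
set_option linter.unusedSectionVars false

/-! Normal subgroups with small chief factors: conclusions. -/

namespace Pool.Agent.V5helper31.CF

open Pool.Agent.Helper460_OutF Pool.Agent.Helper460_CSP
open FreeGroup (of)
open scoped commutatorElement
open Pool.Agent.W7h60.QR (Bd)

universe u v

/-- the centre of `U / V` is generated by fewer than `n * (n - 1).choose 2` elements -/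
def SC (n : ℕ) (V U : Subgroup (MulAut (FreeGroup (Fin n)))) : Prop :=
  ∃ S : Finset (MulAut (FreeGroup (Fin n))), S.card < n * (n - 1).choose 2 ∧
    (∀ s ∈ S, s ∈ U ∧ ∀ y ∈ U, ⁅s, y⁆ ∈ V) ∧
    ∀ x ∈ U, (∀ y ∈ U, ⁅x, y⁆ ∈ V) →
      ∃ s ∈ Subgroup.closure (S : Set (MulAut (FreeGroup (Fin n)))), s⁻¹ * x ∈ V

/-- small action on `U / V` -/
def SA (n : ℕ) (V U : Subgroup (MulAut (FreeGroup (Fin n)))) : Prop :=
  (∀ x ∈ U, ∀ y ∈ U, ⁅x, y⁆ ∈ V) ∨
  (∃ i j k : Fin n, i ≠ j ∧ i ≠ k ∧ j ≠ k ∧ ∀ y ∈ U, ⁅rr i ⁅of j, of k⁆, y⁆ ∈ V) ∨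
  ∃ (K : Type u) (_ : CommRing K) (M : Type v) (_ : AddCommGroup M) (_ : Module K M) (e : ℕ)
    (g : Fin e → M) (f : MulAut (FreeGroup (Fin n)) →* (M ≃ₗ[K] M)), Bd n e ∧
    Submodule.span K (Set.range g) = ⊤ ∧ ∀ α, f α = 1 → ∀ y ∈ U, ⁅α, y⁆ ∈ V

theorem step {n : ℕ} (h6 : 6 ≤ n) {V U : Subgroup (MulAut (FreeGroup (Fin n)))} (hV : V.Normal)
    (hU : U.Normal) (hRU : RR (Fin n) ≤ U) (h1 : SC n V U)
    (h2 : SA.{u, v} n V U) : RR (Fin n) ≤ V := by
  have hact : ∀ r ∈ RR (Fin n), ∀ x ∈ U, ⁅r, x⁆ ∈ V := by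
    rcases h2 with h2 | h2 | h2
    · exact fun r hr x hx => h2 r (hRU hr) x hx
    · obtain ⟨i, j, k, hij, hik, hjk, h⟩ := h2
      have := one_all (X := Cm V U) hij hik hjk (mem_Cm.2 h)
      exact fun r hr => mem_Cm.1 (this hr)
    · obtain ⟨K, _, M, _, _, e, g, f, he, hg, h⟩ := h2
      have := lin_kills he hg f
      exact fun r hr => h r (this hr)
  obtain ⟨S, hS, hS1, hS2⟩ := h1
  refine step_lemma (by simpa using h6) hRU hact (d := S.card) (by simpa using hS)
    (fun i => (S.equivFin.symm i : MulAut (FreeGroup (Fin n)))) (fun i => ?_) ?_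
  · exact mem_Zm.2 (hS1 _ (S.equivFin.symm i).2)
  · intro x hx
    obtain ⟨hxU, hx⟩ := mem_Zm.1 hx
    obtain ⟨s, hs, hsx⟩ := hS2 x hxU hx
    have h3 : Set.range (fun i => (S.equivFin.symm i : MulAut (FreeGroup (Fin n)))) =
        (S : Set (MulAut (FreeGroup (Fin n)))) := by
      ext y
      constructor
      · rintro ⟨i, rfl⟩
        exact (S.equivFin.symm i).2
      · intro hy
        exact ⟨S.equivFin ⟨y, hy⟩, by simp⟩
    rw [h3]
    have h4 : x = s * (s⁻¹ * x) := by group
    rw [h4]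
    exact Subgroup.mul_mem_sup hs hsx

theorem chain {n : ℕ} (h6 : 6 ≤ n) {r : ℕ} {W : ℕ → Subgroup (MulAut (FreeGroup (Fin n)))}
    (h0 : W 0 = ⊤) (hW : ∀ i < r, (W (i + 1)).Normal ∧ SC n (W (i + 1)) (W i) ∧
      SA.{u, v} n (W (i + 1)) (W i)) : RR (Fin n) ≤ W r := by
  have key : ∀ i ≤ r, (W i).Normal ∧ RR (Fin n) ≤ W i := by
    intro i
    induction i with
    | zero => intro _; rw [h0]; exact ⟨inferInstance, le_top⟩
    | succ i ih =>
      intro hi
      obtain ⟨h1, h2⟩ := ih (by omega)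
      obtain ⟨h3, h4, h5⟩ := hW i (by omega)
      exact ⟨h3, step h6 h3 h1 h2 h4 h5⟩
  exact (key r le_rfl).2

/-! ### The conclusions -/

section conc

variable {n : ℕ} {V : Subgroup (MulAut (FreeGroup (Fin n)))}

lemma good_top (hn : 4 ≤ n) : Pool.Agent.Results.MP_181555_al.RationalHolonomy.Good n ⊤ := by
  obtain ⟨_, _, _, h, _, _⟩ := Pool.Agent.Results.MP_181555_al.RationalHolonomy.result n hn
  have h1 := h 0 1 (fun x => ⟨1, Subsingleton.elim _ _⟩)
  have h2 : (1 : FreeGroup (Fin n) →* (Fin 0 → ℤˣ)).ker = ⊤ := MonoidHom.ker_one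
  rwa [h2] at h1

lemma cong_aut (hn : 4 ≤ n) (hfin : V.FiniteIndex) (h : RR (Fin n) ≤ V) :
    ∃ K : Subgroup (FreeGroup (Fin n)), K.Characteristic ∧ K.FiniteIndex ∧
      ∀ α : MulAut (FreeGroup (Fin n)), (∀ x, α x * x⁻¹ ∈ K) → α ∈ V := by
  obtain ⟨h1, _⟩ := Pool.Agent.Results.MP_181555_al.RationalHolonomy.result n hn
  obtain ⟨_, h2, _⟩ := h1 {⊤} (Set.finite_singleton _) (by
      rintro N rfl
      exact ⟨inferInstance, good_top hn⟩) (by
      rintro N rfl θ
      rw [Set.mem_singleton_iff]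
      exact Subgroup.map_top_of_surjective _ θ.surjective)
  refine h2 2 V hfin fun α hα => h ?_
  exact gamma3_le (by simpa using hn) fun x => hα ⊤ rfl x

lemma cong_out (hn : 4 ≤ n) (hfin : V.FiniteIndex) (h : RR (Fin n) ≤ V)
    (hinn : ∀ x, MulAut.conj x ∈ V) :
    ∃ K : Subgroup (FreeGroup (Fin n)), K.Characteristic ∧ K.FiniteIndex ∧
      ∀ α : MulAut (FreeGroup (Fin n)), (∃ g, ∀ x, α x * (g * x * g⁻¹)⁻¹ ∈ K) → α ∈ V := by
  obtain ⟨h1, _⟩ := Pool.Agent.Results.MP_181555_al.RationalHolonomy.result n hn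
  obtain ⟨_, _, h2⟩ := h1 {⊤} (Set.finite_singleton _) (by
      rintro N rfl
      exact ⟨inferInstance, good_top hn⟩) (by
      rintro N rfl θ
      rw [Set.mem_singleton_iff]
      exact Subgroup.map_top_of_surjective _ θ.surjective)
  refine h2 2 V hfin hinn fun α hα => ?_
  obtain ⟨g, hg⟩ := hα
  have h3 : (MulAut.conj g)⁻¹ * α ∈ RR (Fin n) := by
    refine gamma3_le (by simpa using hn) fun x => ?_
    have h4 := hg ⊤ rfl x
    have h5 : ((MulAut.conj g)⁻¹ * α) x * x⁻¹ = g⁻¹ * (α x * (g * x * g⁻¹)⁻¹) * g⁻¹⁻¹ := by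
      rw [MulAut.mul_apply, MulAut.conj_inv_apply]
      group
    rw [h5]
    have : ((⊤ : Subgroup (FreeGroup (Fin n))).lowerCentralSeries 2).Normal := inferInstance
    exact this.conj_mem _ h4 _
  have h6 := mul_mem (hinn g) (h h3)
  rwa [mul_inv_cancel_left] at h6

end conc

/-- the classes of the inner automorphisms and the exponent of `IA` modulo `V` -/
theorem power {ι : Type} [DecidableEq ι] [Fintype ι] (h4 : 4 ≤ Fintype.card ι)
    {V : Subgroup (MulAut (FreeGroup ι))} [V.Normal] (h : RR ι ≤ V)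
    (hinn : ∀ x, MulAut.conj x ∈ V) {α : MulAut (FreeGroup ι)} (hα : α ∈ IA (FreeGroup ι)) :
    α ^ (Fintype.card ι - 1) ∈ V := by
  have hq : KC (QuotientGroup.mk' V) := fun i j k h1 h2 h3 =>
    mk_eq_one.2 (h (mem_RR h1 h2 h3))
  -- the partial conjugations
  have h1 : ∀ m i : ι, (QuotientGroup.mk' V (cc i (of m))) ^ (Fintype.card ι - 1) = 1 := by
    intro m i
    by_cases him : i = m
    · subst him
      rw [cc_of_self, map_one, one_pow]
    · let l : List ι := (Finset.univ.erase m).toList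
      have hl : l.Nodup := Finset.nodup_toList _
      have h6 : (l.map (fun i => cc i (of m))).prod = MulAut.conj (of m)⁻¹ := by
        apply aut_ext
        intro j
        rw [prod_cc (of m) l hl, MulAut.conj_apply, inv_inv]
        · by_cases hj : j = m
          · subst hj
            rw [if_neg]
            · group
            · simp [l]
          · rw [if_pos]
            simp [l, hj]
        · intro i hi
          apply kil_ne
          intro h7
          simp [l, h7] at hi
      have h7 : (QuotientGroup.mk' V (l.map (fun i => cc i (of m))).prod) = 1 := by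
        rw [h6]
        exact mk_eq_one.2 (hinn _)
      rw [map_list_prod, List.map_map] at h7
      have h8 : l.map ((QuotientGroup.mk' V) ∘ fun i => cc i (of m)) =
          l.map (fun _ => QuotientGroup.mk' V (cc i (of m))) := by
        apply List.map_congr_left
        intro j hj
        have hjm : j ≠ m := by
          rintro rfl
          simp [l] at hj
        show QuotientGroup.mk' V (cc j (of m)) = _
        by_cases hij : j = i
        · rw [hij]
        · exact hq.indep hjm hij (Ne.symm him)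
      rw [h8, List.map_const', List.prod_replicate] at h7
      have h9 : l.length = Fintype.card ι - 1 := by
        simp [l]
      rwa [h9] at h7
  have h2 : QuotientGroup.mk' V α ∈ BB (QuotientGroup.mk' V) := by
    have h3 : IA (FreeGroup ι) ≤ (BB (QuotientGroup.mk' V)).comap (QuotientGroup.mk' V) := by
      refine IA_le_of h4 (fun r hr => ?_) fun i j => cc_mem_BB i (of j)
      show QuotientGroup.mk' V r ∈ BB (QuotientGroup.mk' V)
      rw [mk_eq_one.2 (h hr)]
      exact one_mem _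
    exact h3 hα
  rw [← mk_eq_one, map_pow]
  have h5 : ∀ a ∈ BB (QuotientGroup.mk' V), a ^ (Fintype.card ι - 1) = 1 := by
    intro a ha
    induction ha using Subgroup.closure_induction with
    | mem x hx =>
      obtain ⟨i, j, rfl⟩ := hx
      exact h1 j i
    | one => exact one_pow _
    | mul x y hx hy h1 h2 => rw [(hq.BB_comm h4 hx hy).mul_pow, h1, h2, one_mul]
    | inv x _ h1 => rw [inv_pow, h1, inv_one]
  exact h5 _ h2

end Pool.Agent.V5helper31.CF
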