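import Pool.Agent.V5helper31.CF.Unip
import Pool.Agent.TH271.CU.Fin

set_option autoImplicit false
set_option linter.unusedSectionVars false

/-! The action of the transvections on `RR / X` if `[IA, RR] ≤ X ≤ RR`. -/

namespace Pool.Agent.V5helper31.CF

open Pool.Agent.Helper460_OutF Pool.Agent.Helper460_CSP
open FreeGroup (of)
open Pool.Agent.Helper156.OF (SP toAut toAut_gl gl nv gl_nv gl_true Lt SP.map_nv)
open scoped commutatorElement

variable {ι : Type} [DecidableEq ι] [Fintype ι]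

section rules

variable {X : Subgroup (MulAut (FreeGroup ι))} [X.Normal]
  (h4 : 4 ≤ Fintype.card ι) (hIA : ⁅IA (FreeGroup ι), RR ι⁆ ≤ X)

include h4 hIA


omit h4 in
lemma IA_RR {a b : MulAut (FreeGroup ι)} (ha : a ∈ IA (FreeGroup ι)) (hb : b ∈ RR ι) :
    Commute ((QuotientGroup.mk' X) a) ((QuotientGroup.mk' X) b) := comm_iff.1 (hIA (Subgroup.commutator_mem_commutator ha hb))

lemma cc_commX (i : ι) (u v : FreeGroup ι) : Commute ((QuotientGroup.mk' X) (cc i u)) ((QuotientGroup.mk' X) (cc i v)) := by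
  refine commute_of_gen (QuotientGroup.mk' X |>.comp (cc i)) (fun j k => ?_) u v
  show Commute ((QuotientGroup.mk' X) (cc i (of j))) ((QuotientGroup.mk' X) (cc i (of k)))
  by_cases hj : i = j
  · subst hj; rw [cc_of_self, map_one]; exact Commute.one_left _
  by_cases hk : i = k
  · subst hk; rw [cc_of_self, map_one]; exact Commute.one_right _
  obtain ⟨m, m1, m2, m3⟩ := out3 h4 i j k
  have h1 : (QuotientGroup.mk' X) (cc i (of j)) = (QuotientGroup.mk' X) (cc m (of j)) * ((QuotientGroup.mk' X) ((cc i (of j))⁻¹ * cc m (of j)))⁻¹ := by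
    rw [← map_inv, ← map_mul]
    congr 1
    group
  rw [h1]
  refine Commute.mul_left ?_ ?_
  · exact (cc_cc_exact (Ne.symm m1) hj (Ne.symm m3)).map (QuotientGroup.mk' X)
  · exact (IA_RR hIA (cc_mem_IA _ _) (cc_move hj m2)).symm.inv_left

lemma cc_oneX (i : ι) (u v : FreeGroup ι) : (QuotientGroup.mk' X) (cc i ⁅u, v⁆) = 1 := by
  rw [map_commutatorElement, map_commutatorElement, commutatorElement_eq_one_iff_commute]
  exact cc_commX h4 hIA i u v

lemma rr_llX (i : ι) (u v : FreeGroup ι) : (QuotientGroup.mk' X) (rr i ⁅u, v⁆) = ((QuotientGroup.mk' X) (ll i ⁅u, v⁆))⁻¹ := by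
  have h1 := cc_oneX h4 hIA i u v
  rw [cc_eq, map_mul] at h1
  exact (inv_eq_of_mul_eq_one_right h1).symm

/-- `x_i ↦ x_i w`, `w` a commutator, commutes with all `x_i ↦ x_i g` -/
lemma rr_rrX (i : ι) (g u v : FreeGroup ι) : Commute ((QuotientGroup.mk' X) (rr i g)) ((QuotientGroup.mk' X) (rr i ⁅u, v⁆)) := by
  rw [rr_llX h4 hIA]
  exact (ll_rr_comm' i _ g).symm.inv_right

lemma conjX (i : ι) (g u v : FreeGroup ι) : (QuotientGroup.mk' X) (rr i (g * ⁅u, v⁆ * g⁻¹)) = (QuotientGroup.mk' X) (rr i ⁅u, v⁆) := by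
  rw [map_mul, map_mul, map_inv, map_mul, map_mul, map_inv, (rr_rrX h4 hIA i g u v).eq,
    mul_inv_cancel_right]

lemma mul_leftX (i : ι) (u u' v : FreeGroup ι) :
    (QuotientGroup.mk' X) (rr i ⁅u * u', v⁆) = (QuotientGroup.mk' X) (rr i ⁅u', v⁆) * (QuotientGroup.mk' X) (rr i ⁅u, v⁆) := by
  have e : ⁅u * u', v⁆ = (u * ⁅u', v⁆ * u⁻¹) * ⁅u, v⁆ := by
    simp only [commutatorElement_def]; group
  rw [e, map_mul, map_mul, conjX h4 hIA]

lemma mul_rightX (i : ι) (u v v' : FreeGroup ι) :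
    (QuotientGroup.mk' X) (rr i ⁅u, v * v'⁆) = (QuotientGroup.mk' X) (rr i ⁅u, v⁆) * (QuotientGroup.mk' X) (rr i ⁅u, v'⁆) := by
  have e : ⁅u, v * v'⁆ = ⁅u, v⁆ * (v * ⁅u, v'⁆ * v⁻¹) := by
    simp only [commutatorElement_def]; group
  rw [e, map_mul, map_mul, conjX h4 hIA]

omit h4 hIA in
lemma swapX (i : ι) (u v : FreeGroup ι) : (QuotientGroup.mk' X) (rr i ⁅v, u⁆) = ((QuotientGroup.mk' X) (rr i ⁅u, v⁆))⁻¹ := by
  rw [← commutatorElement_inv, map_inv, map_inv]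

omit h4 hIA in
/-- rule A -/
lemma ruleA {i j k p r : ι} (h1 : i ≠ p) (h2 : i ≠ r) (h3 : j ≠ p) (h5 : k ≠ p) :
    (QuotientGroup.mk' X) (rr p (of r)) * (QuotientGroup.mk' X) (rr i ⁅of j, of k⁆) * ((QuotientGroup.mk' X) (rr p (of r)))⁻¹ = (QuotientGroup.mk' X) (rr i ⁅of j, of k⁆) := by
  rw [← map_inv, ← map_mul, ← map_mul, (pres_rr h1 (kil_of_letter h2)).rr, map_commutatorElement,
    rr_ne h3, rr_ne h5]

/-- rule B -/
lemma ruleB {i k p r : ι} (h1 : i ≠ p) (h2 : i ≠ r) (h3 : p ≠ r) (h5 : k ≠ p) :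
    (QuotientGroup.mk' X) (rr p (of r)) * (QuotientGroup.mk' X) (rr i ⁅of p, of k⁆) * ((QuotientGroup.mk' X) (rr p (of r)))⁻¹ =
      (QuotientGroup.mk' X) (rr i ⁅of r, of k⁆) * (QuotientGroup.mk' X) (rr i ⁅of p, of k⁆) := by
  rw [← map_inv, ← map_mul, ← map_mul, (pres_rr h1 (kil_of_letter h2)).rr, map_commutatorElement,
    rr_ne h5, rr_self, kil_of_letter h3, mul_leftX h4 hIA]

/-- rule B' -/
lemma ruleB' {i j p r : ι} (h1 : i ≠ p) (h2 : i ≠ r) (h3 : p ≠ r) (h5 : j ≠ p) :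
    (QuotientGroup.mk' X) (rr p (of r)) * (QuotientGroup.mk' X) (rr i ⁅of j, of p⁆) * ((QuotientGroup.mk' X) (rr p (of r)))⁻¹ =
      (QuotientGroup.mk' X) (rr i ⁅of j, of r⁆) * (QuotientGroup.mk' X) (rr i ⁅of j, of p⁆) := by
  have e : ∀ a b : FreeGroup ι, ⁅a, b⁆ = ⁅b, a⁆⁻¹ := fun a b => (commutatorElement_inv b a).symm
  have h := ruleB h4 hIA (k := j) h1 h2 h3 h5
  have h' := congrArg (fun x => x⁻¹) h
  simp only [mul_inv_rev, inv_inv, ← map_inv, commutatorElement_inv] at h'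
  have hcomm : Commute ((QuotientGroup.mk' X) (rr i ⁅of j, of p⁆)) ((QuotientGroup.mk' X) (rr i ⁅of j, of r⁆)) :=
    IA_RR hIA (rr_comm_mem_IA _ _ _) (rr_mem_RR _ _ _)
  rw [hcomm.eq, ← mul_assoc] at h'
  exact h'

/-- rule C -/
lemma ruleC (p r j k : ι) :
    (QuotientGroup.mk' X) (rr p (of r)) * (QuotientGroup.mk' X) (rr p ⁅of j, of k⁆) * ((QuotientGroup.mk' X) (rr p (of r)))⁻¹ = (QuotientGroup.mk' X) (rr p ⁅of j, of k⁆) := by
  rw [(rr_rrX h4 hIA p (of r) (of j) (of k)).eq, mul_inv_cancel_right]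

/-- rule D -/
lemma ruleD {j k p r : ι} (hpr : p ≠ r) (h1 : j ≠ p) (h2 : k ≠ p) (h3 : j ≠ r) (h5 : k ≠ r) :
    (QuotientGroup.mk' X) (rr p (of r)) * (QuotientGroup.mk' X) (rr r ⁅of j, of k⁆) * ((QuotientGroup.mk' X) (rr p (of r)))⁻¹ =
      ((QuotientGroup.mk' X) (rr p ⁅of j, of k⁆))⁻¹ * (QuotientGroup.mk' X) (rr r ⁅of j, of k⁆) := by
  set c := rr r ⁅of j, of k⁆ with hc
  set s := rr p ⁅of j, of k⁆ with hs
  set t := rr p (of r) with ht
  have e0 : c * t * c⁻¹ = t * s := by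
    rw [ht, hc, (pres_rr hpr (kil_comm2 h1 h2)).rr, rr_self, kil_comm2 h3 h5, map_mul]
  have e1 : c⁻¹ * t * c = t * s⁻¹ := by
    have e2 : c * s * c⁻¹ = s := by
      rw [hs, hc, (pres_rr hpr (kil_comm2 h1 h2)).rr, map_commutatorElement, rr_ne h3, rr_ne h5]
    have e3 : c * (t * s⁻¹) * c⁻¹ = t := by
      calc c * (t * s⁻¹) * c⁻¹ = (c * t * c⁻¹) * (c * s * c⁻¹)⁻¹ := by group
        _ = _ := by rw [e0, e2]; group
    calc c⁻¹ * t * c = c⁻¹ * (c * (t * s⁻¹) * c⁻¹) * c := by rw [e3]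
      _ = _ := by group
  have e4 : t * c * t⁻¹ = c * (t * s * t⁻¹)⁻¹ := by
    calc t * c * t⁻¹ = c * (c⁻¹ * t * c) * t⁻¹ := by group
      _ = _ := by rw [e1]; group
  have e5 := ruleC h4 hIA p r j k
  rw [← ht, ← hs] at e5
  have e6 := congrArg (QuotientGroup.mk' X) e4
  simp only [map_mul, map_inv] at e6
  rw [e6, e5]
  have hcomm : Commute ((QuotientGroup.mk' X) c) ((QuotientGroup.mk' X) s) :=
    IA_RR hIA (rr_comm_mem_IA _ _ _) (rr_mem_RR _ _ _)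
  exact (hcomm.inv_right).eq

end rules

/-- if one commutator transvection is in the normal subgroup `X` then all are -/
lemma one_all {X : Subgroup (MulAut (FreeGroup ι))} [hX : X.Normal] {i j k : ι} (h1 : i ≠ j)
    (h2 : i ≠ k) (h3 : j ≠ k) (h : rr i ⁅of j, of k⁆ ∈ X) : RR ι ≤ X := by
  apply RR_le
  intro i' j' k' h1' h2' h3'
  obtain ⟨σ, s1, s2, s3⟩ := Pool.Agent.TH271.CU.exists_sp3 (x := (i, true)) (y := (i', true))
    (a := (j, true)) (b := (j', true)) (c := (k, true)) (d := (k', true)) h1 h1' h2 h3 h2' h3'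
  have e1 : toAut σ * rr i ⁅of j, of k⁆ * (toAut σ)⁻¹ = rr i' ⁅of j', of k'⁆ := by
    rw [mul_inv_eq_iff_eq_mul]
    show toAut σ * lr i (1, ⁅of j, of k⁆) = _
    have hs : spi σ i = i' := by unfold spi; rw [s1]
    rw [sp_lr, if_pos (by rw [s1]), map_one, hs, map_commutatorElement, toAut_of, toAut_of, s2, s3,
      gl_true, gl_true]
    rfl
  rw [← e1]
  exact hX.conj_mem _ h _

end Pool.Agent.V5helper31.CF
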