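import Pool.Agent.V5helper31.CF.Dim2

set_option autoImplicit false
set_option linter.unusedSectionVars false

/-! Normal series with small factors. -/

namespace Pool.Agent.V5helper31.CF

open Pool.Agent.Helper460_OutF Pool.Agent.Helper460_CSP
open FreeGroup (of)
open scoped commutatorElement

section grp

variable {A : Type} [Group A]

/-- the elements of `U` which are central modulo `V` -/
def Zm (V U : Subgroup A) [V.Normal] : Subgroup A :=
  U ⊓ (Subgroup.centralizer (U.map (QuotientGroup.mk' V) : Set (A ⧸ V))).comap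
    (QuotientGroup.mk' V)

lemma comm_iff' {X : Subgroup A} [X.Normal] {a b : A} :
    ⁅a, b⁆ ∈ X ↔ Commute (QuotientGroup.mk' X a) (QuotientGroup.mk' X b) := by
  rw [← commutatorElement_eq_one_iff_commute, ← map_commutatorElement]
  exact (QuotientGroup.eq_one_iff _).symm

lemma mem_Zm {V U : Subgroup A} [V.Normal] {x : A} : x ∈ Zm V U ↔
    x ∈ U ∧ ∀ y ∈ U, ⁅x, y⁆ ∈ V := by
  unfold Zm
  rw [Subgroup.mem_inf, Subgroup.mem_comap, Subgroup.mem_centralizer_iff]
  refine and_congr_right fun _ => ⟨fun h y hy => ?_, ?_⟩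
  · rw [comm_iff']
    exact (h _ ⟨y, hy, rfl⟩).symm
  · rintro h _ ⟨y, hy, rfl⟩
    exact (comm_iff'.1 (h y hy)).symm

/-- the elements which act trivially on `U / V` -/
def Cm (V U : Subgroup A) [V.Normal] : Subgroup A :=
  (Subgroup.centralizer (U.map (QuotientGroup.mk' V) : Set (A ⧸ V))).comap (QuotientGroup.mk' V)

lemma mem_Cm {V U : Subgroup A} [V.Normal] {x : A} : x ∈ Cm V U ↔ ∀ y ∈ U, ⁅x, y⁆ ∈ V := by
  unfold Cm
  rw [Subgroup.mem_comap, Subgroup.mem_centralizer_iff]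
  constructor
  · intro h y hy
    rw [comm_iff']
    exact (h _ ⟨y, hy, rfl⟩).symm
  · rintro h _ ⟨y, hy, rfl⟩
    exact (comm_iff'.1 (h y hy)).symm

instance Cm_normal (V U : Subgroup A) [V.Normal] [U.Normal] : (Cm V U).Normal := by
  unfold Cm
  have : (U.map (QuotientGroup.mk' V)).Normal :=
    Subgroup.Normal.map inferInstance _ (QuotientGroup.mk'_surjective V)
  infer_instance

end grp

section gen

/-- A submodule of a module over `ℤ` with `d` generators has `d` generators. -/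
lemma sub_gen {C : Type*} [AddCommGroup C] {d : ℕ} (c : Fin d → C)
    (hc : Submodule.span ℤ (Set.range c) = ⊤) (B : Submodule ℤ C) :
    ∃ m ≤ d, ∃ b : Fin m → C, Submodule.span ℤ (Set.range b) = B := by
  let φ : (Fin d → ℤ) →ₗ[ℤ] C := Fintype.linearCombination ℤ c
  have hφ : LinearMap.range φ = ⊤ := by
    rw [Fintype.range_linearCombination, hc]
  let N : Submodule ℤ (Fin d → ℤ) := B.comap φ
  have h1 : Module.finrank ℤ N ≤ d := by
    have := Submodule.finrank_le N
    rwa [Module.finrank_fin_fun] at this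
  let bN := Module.finBasis ℤ N
  refine ⟨_, h1, fun i => φ (bN i), ?_⟩
  have h2 : Set.range (fun i => φ ((bN i : N) : Fin d → ℤ)) =
      (φ ∘ₗ N.subtype) '' Set.range bN := by
    rw [← Set.range_comp]
    rfl
  rw [h2, Submodule.span_image, bN.span_eq, Submodule.map_top, LinearMap.range_comp,
    Submodule.range_subtype]
  show Submodule.map φ (Submodule.comap φ B) = B
  rw [Submodule.map_comap_eq, hφ, top_inf_eq]

end gen

variable {ι : Type} [DecidableEq ι] [Fintype ι]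

theorem exponent {V : Subgroup (MulAut (FreeGroup ι))} [V.Normal]
    (hp : ∀ p : ℕ, p.Prime → ∀ r ∈ RR ι, ∃ s ∈ RR ι, QuotientGroup.mk' V r =
      (QuotientGroup.mk' V s) ^ p) :
    ∀ m : ℕ, 0 < m → (∀ r ∈ RR ι, r ^ m ∈ V) → RR ι ≤ V := by
  intro m
  induction m using Nat.strong_induction_on with
  | _ m ih =>
    intro hm h
    by_cases h1 : m = 1
    · subst h1
      intro r hr
      have := h r hr
      rwa [pow_one] at this
    · have hpr := Nat.minFac_prime h1
      obtain ⟨m', hm'⟩ := Nat.minFac_dvd m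
      have h2 : 0 < m' := by
        rcases Nat.eq_zero_or_pos m' with h3 | h3
        · rw [h3, mul_zero] at hm'; omega
        · exact h3
      have h3 : m' < m := by
        have := hpr.two_le
        calc m' < 2 * m' := by omega
          _ ≤ m.minFac * m' := Nat.mul_le_mul_right _ this
          _ = m := hm'.symm
      refine ih m' h3 h2 fun r hr => ?_
      obtain ⟨s, hs, hrs⟩ := hp _ hpr r hr
      rw [← mk_eq_one, map_pow, hrs, ← pow_mul, ← hm', ← map_pow]
      exact mk_eq_one.2 (h s hs)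

theorem step_lemma (h6 : 6 ≤ Fintype.card ι) {V U : Subgroup (MulAut (FreeGroup ι))} [hV : V.Normal]
    (hRU : RR ι ≤ U) (hact : ∀ r ∈ RR ι, ∀ x ∈ U, ⁅r, x⁆ ∈ V) {d : ℕ}
    (hd : d < Fintype.card ι * (Fintype.card ι - 1).choose 2)
    (g : Fin d → MulAut (FreeGroup ι)) (hg : ∀ i, g i ∈ Zm V U)
    (hgen : Zm V U ≤ Subgroup.closure (Set.range g) ⊔ V) : RR ι ≤ V := by
  have hRZ : RR ι ≤ Zm V U := fun r hr => mem_Zm.2 ⟨hRU hr, hact r hr⟩
  let C : Subgroup (MulAut (FreeGroup ι) ⧸ V) := (Zm V U).map (QuotientGroup.mk' V)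
  have hCM : CM C := by
    refine ⟨?_⟩
    rintro ⟨_, r, hr, rfl⟩ ⟨_, s, hs, rfl⟩
    exact Subtype.ext (comm_iff'.1 ((mem_Zm.1 hr).2 s (mem_Zm.1 hs).1)).eq
  let c : Fin d → Additive C := fun i =>
    Additive.ofMul ⟨QuotientGroup.mk' V (g i), ⟨g i, hg i, rfl⟩⟩
  -- closures and spans
  have key : ∀ {m : ℕ} (b : Fin m → MulAut (FreeGroup ι)) (hb : ∀ i, b i ∈ Zm V U),
      ∀ s ∈ Subgroup.closure (Set.range b), ∃ hs : s ∈ Zm V U,
        (Additive.ofMul (⟨QuotientGroup.mk' V s, ⟨s, hs, rfl⟩⟩ : C)) ∈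
          Submodule.span ℤ (Set.range fun i => (Additive.ofMul
            (⟨QuotientGroup.mk' V (b i), ⟨b i, hb i, rfl⟩⟩ : C) : Additive C)) := by
    intro m b hb s hs
    induction hs using Subgroup.closure_induction with
    | mem s hs =>
      obtain ⟨i, rfl⟩ := hs
      exact ⟨hb i, Submodule.subset_span ⟨i, rfl⟩⟩
    | one =>
      refine ⟨one_mem _, ?_⟩
      have : (⟨QuotientGroup.mk' V 1, ⟨1, one_mem _, rfl⟩⟩ : C) = 1 := Subtype.ext (map_one _)
      rw [this]
      exact Submodule.zero_mem _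
    | mul s t _ _ h1 h2 =>
      obtain ⟨hs, h1⟩ := h1
      obtain ⟨ht, h2⟩ := h2
      refine ⟨mul_mem hs ht, ?_⟩
      have h3 := Submodule.add_mem _ h1 h2
      have h4 : (⟨QuotientGroup.mk' V (s * t), ⟨s * t, mul_mem hs ht, rfl⟩⟩ : C) =
          (⟨QuotientGroup.mk' V s, ⟨s, hs, rfl⟩⟩ : C) *
            ⟨QuotientGroup.mk' V t, ⟨t, ht, rfl⟩⟩ := Subtype.ext (map_mul _ _ _)
      rw [h4]
      exact h3
    | inv s _ h1 =>
      obtain ⟨hs, h1⟩ := h1
      refine ⟨inv_mem hs, ?_⟩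
      have h3 := Submodule.neg_mem _ h1
      have h4 : (⟨QuotientGroup.mk' V s⁻¹, ⟨s⁻¹, inv_mem hs, rfl⟩⟩ : C) =
          (⟨QuotientGroup.mk' V s, ⟨s, hs, rfl⟩⟩ : C)⁻¹ := Subtype.ext (map_inv _ _)
      rw [h4]
      exact h3
  have hspan : Submodule.span ℤ (Set.range c) = ⊤ := by
    ext x
    refine ⟨fun _ => Submodule.mem_top, fun _ => ?_⟩
    obtain ⟨y, hy⟩ : ∃ y : C, Additive.ofMul y = x := ⟨Additive.toMul x, rfl⟩
    obtain ⟨_, r, hr, rfl⟩ := y
    obtain ⟨s, hs, t, ht, hst⟩ := Subgroup.mem_sup_of_normal_right.1 (hgen hr)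
    obtain ⟨hs', h1⟩ := key g hg s hs
    have e : (⟨QuotientGroup.mk' V r, ⟨r, hr, rfl⟩⟩ : C) =
        ⟨QuotientGroup.mk' V s, ⟨s, hs', rfl⟩⟩ := by
      apply Subtype.ext
      show QuotientGroup.mk' V r = QuotientGroup.mk' V s
      rw [← hst, map_mul, mk_eq_one.2 ht, mul_one]
    rw [← hy, e]
    exact h1
  -- the submodule of the classes of `RR`
  let B : Submodule ℤ (Additive C) := AddSubgroup.toIntSubmodule
    (Subgroup.toAddSubgroup (((RR ι).map (QuotientGroup.mk' V)).subgroupOf C))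
  have hB : ∀ y : C, Additive.ofMul y ∈ B ↔ ∃ r ∈ RR ι, QuotientGroup.mk' V r = y :=
    fun y => Iff.rfl
  obtain ⟨m, hm, b, hb⟩ := sub_gen c hspan B
  have hb' : ∀ i, ∃ r ∈ RR ι, QuotientGroup.mk' V r = (Additive.toMul (b i) : C) := fun i =>
    (hB (Additive.toMul (b i))).1 (hb ▸ Submodule.subset_span ⟨i, rfl⟩)
  choose g' hg' hgb using hb'
  have hgen' : ∀ r ∈ RR ι, ∃ s ∈ Subgroup.closure (Set.range g'), ∃ t ∈ V, s * t = r := by
    intro r hr
    have h1 : (Additive.ofMul (⟨QuotientGroup.mk' V r, ⟨r, hRZ hr, rfl⟩⟩ : C)) ∈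
        Submodule.span ℤ (Set.range b) := by
      rw [hb]
      exact (hB _).2 ⟨r, hr, rfl⟩
    have h2 : ∀ x ∈ Submodule.span ℤ (Set.range b), ∃ s ∈ Subgroup.closure (Set.range g'),
        QuotientGroup.mk' V s = (Additive.toMul x : C) := by
      intro x hx
      induction hx using Submodule.span_induction with
      | mem x hx =>
        obtain ⟨i, rfl⟩ := hx
        exact ⟨g' i, Subgroup.subset_closure ⟨i, rfl⟩, hgb i⟩
      | zero => exact ⟨1, one_mem _, map_one _⟩
      | add x y _ _ hx hy =>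
        obtain ⟨s, hs, hs'⟩ := hx
        obtain ⟨t, ht, ht'⟩ := hy
        refine ⟨s * t, mul_mem hs ht, ?_⟩
        rw [map_mul, hs', ht']
        rfl
      | smul a x _ hx =>
        obtain ⟨s, hs, hs'⟩ := hx
        refine ⟨s ^ a, zpow_mem hs a, ?_⟩
        rw [map_zpow, hs']
        rfl
    obtain ⟨s, hs, hs'⟩ := h2 _ h1
    refine ⟨s, hs, s⁻¹ * r, ?_, by group⟩
    exact mk_eq.1 hs'
  have hclo : Subgroup.closure (Set.range g') ≤ RR ι := (Subgroup.closure_le _).2 (by
    rintro _ ⟨i, rfl⟩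
    exact hg' i)
  have hcm : ∀ r ∈ RR ι, ∀ s ∈ RR ι, Commute (QuotientGroup.mk' V r) (QuotientGroup.mk' V s) :=
    fun r hr s hs => comm_iff'.1 (hact r hr s (hRU hs))
  -- divisibility
  have hdiv : ∀ p : ℕ, p.Prime → ∀ r ∈ RR ι, ∃ s ∈ RR ι, QuotientGroup.mk' V r =
      (QuotientGroup.mk' V s) ^ p := by
    intro p hp
    have : Fact p.Prime := ⟨hp⟩
    let X : Subgroup (MulAut (FreeGroup ι)) :=
      { carrier := {r | r ∈ RR ι ∧ ∃ s ∈ RR ι, QuotientGroup.mk' V r =
          (QuotientGroup.mk' V s) ^ p}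
        mul_mem' := by
          rintro a b ⟨ha, s, hs, hs'⟩ ⟨hb, t, ht, ht'⟩
          refine ⟨mul_mem ha hb, s * t, mul_mem hs ht, ?_⟩
          rw [map_mul, map_mul, hs', ht', (hcm s hs t ht).mul_pow]
        one_mem' := ⟨one_mem _, 1, one_mem _, by rw [map_one, one_pow]⟩
        inv_mem' := by
          rintro a ⟨ha, s, hs, hs'⟩
          exact ⟨inv_mem ha, s⁻¹, inv_mem hs, by rw [map_inv, map_inv, hs', inv_pow]⟩ }
    have hmX : ∀ x, x ∈ X ↔ x ∈ RR ι ∧ ∃ s ∈ RR ι, QuotientGroup.mk' V x =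
      (QuotientGroup.mk' V s) ^ p := fun _ => Iff.rfl
    have hXn : X.Normal := by
      refine ⟨?_⟩
      rintro a ⟨ha, s, hs, hs'⟩ k
      refine ⟨RR_normal.conj_mem _ ha k, k * s * k⁻¹, RR_normal.conj_mem _ hs k, ?_⟩
      rw [map_mul, map_mul, map_mul, map_mul, hs', map_inv, conj_pow]
    have hX : X ≤ RR ι := fun x hx => ((hmX x).1 hx).1
    have h1 : RR ι ≤ X := by
      refine small_abelian h6 hX ?_ (p := p) ?_ (d := m) (by omega) g' hg' ?_
      · intro r hr s hs
        refine (hmX _).2 ⟨?_, 1, one_mem _, ?_⟩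
        · rw [commutatorElement_def]
          exact mul_mem (mul_mem (mul_mem hr hs) (inv_mem hr)) (inv_mem hs)
        · rw [map_one, one_pow]
          exact mk_eq_one.2 (hact r hr s (hRU hs))
      · intro r hr
        exact (hmX _).2 ⟨pow_mem hr p, r, hr, map_pow _ _ _⟩
      · intro r hr
        obtain ⟨s, hs, t, ht, hst⟩ := hgen' r hr
        rw [← hst]
        refine Subgroup.mul_mem_sup hs ((hmX _).2 ⟨?_, 1, one_mem _, ?_⟩)
        · have : t = s⁻¹ * r := by rw [← hst]; group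
          rw [this]
          exact mul_mem (inv_mem (hclo hs)) hr
        · rw [map_one, one_pow]
          exact mk_eq_one.2 ht
    exact fun r hr => ((hmX r).1 (h1 hr)).2
  -- a bound for the exponent
  have hfin : Module.Finite ℤ (Additive C) :=
    ⟨Submodule.fg_def.2 ⟨Set.range c, Set.finite_range c, hspan⟩⟩
  have hfg : B.FG := IsNoetherian.noetherian B
  obtain ⟨a, ha, ha'⟩ := Submodule.exists_sub_one_mem_and_smul_eq_zero_of_fg_of_le_smul
    (Ideal.span {(2 : ℤ)}) B hfg (by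
      intro x hx
      obtain ⟨r, hr, hrx⟩ := (hB (Additive.toMul x)).1 hx
      obtain ⟨s, hs, hrs⟩ := hdiv 2 Nat.prime_two r hr
      have h1 : x = (2 : ℤ) • (Additive.ofMul (⟨QuotientGroup.mk' V s, ⟨s, hRZ hs, rfl⟩⟩ : C)) := by
        apply Additive.toMul.injective
        apply Subtype.ext
        show ((Additive.toMul x : C) : MulAut (FreeGroup ι) ⧸ V) =
          (QuotientGroup.mk' V s) ^ (2 : ℤ)
        rw [← hrx, hrs]
        rfl
      rw [h1]
      exact Submodule.smul_mem_smul (Ideal.subset_span rfl) ((hB _).2 ⟨s, hs, rfl⟩))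
  have ha0 : a ≠ 0 := by
    rintro rfl
    rw [Ideal.mem_span_singleton] at ha
    omega
  refine exponent hdiv a.natAbs (Int.natAbs_pos.2 ha0) fun r hr => ?_
  have h1 := ha' _ ((hB ⟨QuotientGroup.mk' V r, ⟨r, hRZ hr, rfl⟩⟩).2 ⟨r, hr, rfl⟩)
  have h2 : (QuotientGroup.mk' V r) ^ a = 1 :=
    congrArg Subtype.val (congrArg Additive.toMul h1)
  have h3 : r ^ a ∈ V := by
    rw [← mk_eq_one, map_zpow]
    exact h2
  rcases Int.natAbs_eq a with h4 | h4
  · rw [h4, zpow_natCast] at h3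
    exact h3
  · rw [h4, zpow_neg, zpow_natCast] at h3
    exact inv_mem_iff.1 h3

end Pool.Agent.V5helper31.CF
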