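import Pool.Agent.V5helper31.CF.Base

set_option autoImplicit false
set_option linter.unusedSectionVars false

/-! `IA_n` acts unipotently on the abelianization of the normal closure `RR` of the commutator
transvections: `[IA, [IA, RR]] ≤ X` for every normal subgroup `X` with `[RR, RR] ≤ X ≤ RR`. -/

namespace Pool.Agent.V5helper31.CF

open Pool.Agent.Helper460_OutF Pool.Agent.Helper460_CSP
open FreeGroup (of)
open scoped commutatorElement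

variable {ι : Type} [DecidableEq ι]

lemma comm_iff {X : Subgroup (MulAut (FreeGroup ι))} [X.Normal] {a b : MulAut (FreeGroup ι)} :
    ⁅a, b⁆ ∈ X ↔ Commute (QuotientGroup.mk' X a) (QuotientGroup.mk' X b) := by
  rw [← mk_eq_one, map_commutatorElement, commutatorElement_eq_one_iff_commute]

lemma comm_swap {X : Subgroup (MulAut (FreeGroup ι))} [X.Normal] {a b : MulAut (FreeGroup ι)}
    (h : ⁅a, b⁆ ∈ X) : ⁅b, a⁆ ∈ X := comm_iff.2 (comm_iff.1 h).symm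

/-- the elements of `RR` which commute with `IA` modulo `X` -/
def Zc (X : Subgroup (MulAut (FreeGroup ι))) [X.Normal] : Subgroup (MulAut (FreeGroup ι)) where
  carrier := {r | r ∈ RR ι ∧ ∀ δ ∈ IA (FreeGroup ι), ⁅δ, r⁆ ∈ X}
  mul_mem' := by
    rintro a b ⟨ha, ha'⟩ ⟨hb, hb'⟩
    refine ⟨mul_mem ha hb, fun δ hδ => ?_⟩
    rw [comm_iff, map_mul]
    exact (comm_iff.1 (ha' δ hδ)).mul_right (comm_iff.1 (hb' δ hδ))
  one_mem' := by
    refine ⟨one_mem _, fun δ hδ => ?_⟩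
    rw [comm_iff, map_one]
    exact Commute.one_right _
  inv_mem' := by
    rintro a ⟨ha, ha'⟩
    refine ⟨inv_mem ha, fun δ hδ => ?_⟩
    rw [comm_iff, map_inv]
    exact (comm_iff.1 (ha' δ hδ)).inv_right

lemma conj_comm' {G : Type*} [Group G] (g a b : G) :
    g * ⁅a, b⁆ * g⁻¹ = ⁅g * a * g⁻¹, g * b * g⁻¹⁆ := by
  rw [commutatorElement_def, commutatorElement_def]
  group

instance Zc_normal (X : Subgroup (MulAut (FreeGroup ι))) [hX : X.Normal] : (Zc X).Normal := by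
  refine ⟨?_⟩
  rintro a ⟨ha, ha'⟩ g
  refine ⟨RR_normal.conj_mem _ ha g, fun δ hδ => ?_⟩
  have h1 : g⁻¹ * δ * g ∈ IA (FreeGroup ι) := by
    have := (IA_normal (FreeGroup ι)).conj_mem _ hδ g⁻¹
    rwa [inv_inv] at this
  have h2 := hX.conj_mem _ (ha' _ h1) g
  rw [conj_comm'] at h2
  have e : g * (g⁻¹ * δ * g) * g⁻¹ = δ := by group
  rwa [e] at h2

lemma le_Zc {X : Subgroup (MulAut (FreeGroup ι))} [hX : X.Normal] (h : X ≤ RR ι) : X ≤ Zc X := by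
  intro x hx
  refine ⟨h hx, fun δ _ => ?_⟩
  rw [commutatorElement_def, mul_assoc (δ * x), mul_assoc δ]
  have : δ * (x * (δ⁻¹ * x⁻¹)) = (δ * x * δ⁻¹) * x⁻¹ := by group
  rw [this]
  exact mul_mem (hX.conj_mem _ hx _) (inv_mem hx)

variable [Fintype ι]

lemma cc_move {i m j : ι} (hij : i ≠ j) (hmj : m ≠ j) :
    (cc i (of j))⁻¹ * cc m (of j) ∈ RR ι := by
  by_cases h : i = m
  · subst h; rw [inv_mul_cancel]; exact one_mem _
  · exact mk_eq.1 (KC_mk.indep hij h (Ne.symm hmj))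

lemma crit (h4 : 4 ≤ Fintype.card ι) {X : Subgroup (MulAut (FreeGroup ι))} [X.Normal]
    (hc : ∀ r ∈ RR ι, ∀ s ∈ RR ι, ⁅r, s⁆ ∈ X) {r : MulAut (FreeGroup ι)} (hr : r ∈ RR ι)
    (h : ∀ l : ι, ∃ m, m ≠ l ∧ ⁅cc m (of l), r⁆ ∈ X) : r ∈ Zc X := by
  refine ⟨hr, ?_⟩
  let D : Subgroup (MulAut (FreeGroup ι)) :=
    (Subgroup.centralizer {QuotientGroup.mk' X r}).comap (QuotientGroup.mk' X)
  have hD : ∀ x, x ∈ D ↔ ⁅x, r⁆ ∈ X := by
    intro x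
    rw [comm_iff]
    show QuotientGroup.mk' X x ∈ Subgroup.centralizer {QuotientGroup.mk' X r} ↔ _
    rw [Subgroup.mem_centralizer_iff]
    constructor
    · intro h1
      exact (h1 _ rfl).symm
    · rintro h1 _ rfl
      exact h1.symm
  have h1 : IA (FreeGroup ι) ≤ D := by
    have hR : RR ι ≤ D := fun s hs => (hD s).2 (hc s hs r hr)
    refine IA_le_of h4 hR fun i j => ?_
    by_cases hij : i = j
    · subst hij; rw [cc_of_self]; exact one_mem _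
    · obtain ⟨m, hm, h2⟩ := h j
      have h3 := mul_mem ((hD _).2 h2) (hR (cc_move hm hij))
      rwa [mul_inv_cancel_left] at h3
  exact fun δ hδ => (hD δ).1 (h1 hδ)

lemma rr_cc {i j k m : ι} (hij : i ≠ j) (hik : i ≠ k) (h1 : m ≠ i) (h2 : m ≠ j) (h3 : m ≠ k) :
    rr i ⁅of j, of k⁆ * cc m (of i) * (rr i ⁅of j, of k⁆)⁻¹ =
      cc m (of i) * cc m ⁅of j, of k⁆ := by
  rw [(pres_rr h1 (kil_comm2 (Ne.symm h2) (Ne.symm h3))).cc, rr_self,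
    kil_comm2 (Ne.symm hij) (Ne.symm hik), map_mul]

lemma z_eq {X : Subgroup (MulAut (FreeGroup ι))} [X.Normal]
    (hc : ∀ r ∈ RR ι, ∀ s ∈ RR ι, ⁅r, s⁆ ∈ X) {i j k m m' : ι} (hij : i ≠ j) (hik : i ≠ k)
    (h1 : m ≠ i) (h2 : m ≠ j) (h3 : m ≠ k) (h1' : m' ≠ i) (h2' : m' ≠ j)
    (h3' : m' ≠ k) : QuotientGroup.mk' X (cc m ⁅of j, of k⁆) =
      QuotientGroup.mk' X (cc m' ⁅of j, of k⁆) := by
  set b := rr i ⁅of j, of k⁆ with hb
  have e1 := rr_cc hij hik h1 h2 h3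
  have e2 := rr_cc hij hik h1' h2' h3'
  rw [← hb] at e1 e2
  have hbR : b ∈ RR ι := rr_mem_RR i (of j) (of k)
  set c := cc m (of i)
  set c' := cc m' (of i)
  have f1 : cc m ⁅of j, of k⁆ = c⁻¹ * b * c * b⁻¹ := by
    calc cc m ⁅of j, of k⁆ = c⁻¹ * (c * cc m ⁅of j, of k⁆) := by group
      _ = _ := by rw [← e1]; group
  have f2 : cc m' ⁅of j, of k⁆ = c'⁻¹ * b * c' * b⁻¹ := by
    calc cc m' ⁅of j, of k⁆ = c'⁻¹ * (c' * cc m' ⁅of j, of k⁆) := by group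
      _ = _ := by rw [← e2]; group
  have hs : c⁻¹ * c' ∈ RR ι := cc_move h1 h1'
  have hcb : c⁻¹ * b * c ∈ RR ι := by
    have := (RR_normal (ι := ι)).conj_mem _ hbR c⁻¹
    rwa [inv_inv] at this
  have hcomm := comm_iff.1 (hc _ hcb _ hs)
  have f3 : c'⁻¹ * b * c' = (c⁻¹ * c')⁻¹ * (c⁻¹ * b * c) * (c⁻¹ * c') := by group
  rw [f1, f2, f3]
  generalize c⁻¹ * b * c = x at *
  generalize c⁻¹ * c' = y at *
  simp only [map_mul, map_inv]
  rw [mul_assoc (QuotientGroup.mk' X y)⁻¹, hcomm.eq,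
    ← mul_assoc (QuotientGroup.mk' X y)⁻¹, inv_mul_cancel, one_mul]

lemma cc_cc' {j k l m p : ι} (h1 : m ≠ p) (h2 : m ≠ l) (h3 : p ≠ j) (h4 : p ≠ k) :
    ⁅cc p (of l), cc m ⁅of j, of k⁆⁆ = 1 := by
  rw [commutatorElement_eq_one_iff_commute]
  apply commute_of_conj'
  rw [(pres_cc h1 (kil_ne (Ne.symm h2))).cc, map_commutatorElement, cc_ne (Ne.symm h3),
    cc_ne (Ne.symm h4)]

lemma z_mem (h5 : 5 ≤ Fintype.card ι) {X : Subgroup (MulAut (FreeGroup ι))} [X.Normal]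
    (hc : ∀ r ∈ RR ι, ∀ s ∈ RR ι, ⁅r, s⁆ ∈ X) {j k m : ι} (h2 : m ≠ j) (h3 : m ≠ k) :
    cc m ⁅of j, of k⁆ ∈ Zc X := by
  refine crit (by omega) hc (cc_mem_RR _ _ _) fun l => ?_
  by_cases hl : l = m
  · subst hl
    obtain ⟨m', a1, a2, a3⟩ := out3 (by omega) j k l
    obtain ⟨i, b1, b2, b3, b4⟩ := out4 h5 j k l m'
    obtain ⟨p, c1, c2, c3, c4⟩ := out4 h5 j k m' l
    refine ⟨p, c4, ?_⟩
    have e := z_eq hc (i := i) (j := j) (k := k) (m := l) (m' := m') b1 b2 (Ne.symm b3) h2 h3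
      (Ne.symm b4) a1 a2
    rw [comm_iff, e, ← comm_iff, cc_cc' (Ne.symm c3) a3 c1 c2]
    exact one_mem _
  · obtain ⟨p, c1, c2, c3, c4⟩ := out4 h5 j k m l
    refine ⟨p, c4, ?_⟩
    rw [cc_cc' (Ne.symm c3) (Ne.symm hl) c1 c2]
    exact one_mem _

lemma Zc_comm {X : Subgroup (MulAut (FreeGroup ι))} [X.Normal]
    (hX : X ≤ RR ι) (hc : ∀ r ∈ RR ι, ∀ s ∈ RR ι, ⁅r, s⁆ ∈ X) :
    ∀ r ∈ RR ι, ∀ s ∈ RR ι, ⁅r, s⁆ ∈ Zc X := fun r hr s hs => le_Zc hX (hc r hr s hs)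

lemma c_mem (h5 : 5 ≤ Fintype.card ι) {X : Subgroup (MulAut (FreeGroup ι))} [X.Normal]
    (hX : X ≤ RR ι) (hc : ∀ r ∈ RR ι, ∀ s ∈ RR ι, ⁅r, s⁆ ∈ X) {i j k : ι} (hij : i ≠ j)
    (hik : i ≠ k) : rr i ⁅of j, of k⁆ ∈ Zc (Zc X) := by
  refine crit (by omega) (Zc_comm hX hc) (rr_mem_RR _ _ _) fun l => ?_
  by_cases hl : l = i
  · subst hl
    obtain ⟨m, a1, a2, a3⟩ := out3 (by omega) l j k
    refine ⟨m, a1, ?_⟩
    have e := rr_cc hij hik a1 a2 a3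
    have hz := z_mem h5 hc (j := j) (k := k) a2 a3
    set b := rr l ⁅of j, of k⁆
    set c := cc m (of l)
    set z := cc m ⁅of j, of k⁆
    have e2 : ⁅c, b⁆ = c * z⁻¹ * c⁻¹ := by
      rw [commutatorElement_def]
      calc c * b * c⁻¹ * b⁻¹ = c * (b * c * b⁻¹)⁻¹ := by group
        _ = _ := by rw [e]; group
    rw [e2]
    exact (Zc_normal X).conj_mem _ (inv_mem hz) c
  · obtain ⟨m, c1, c2, c3, c4⟩ := out4 h5 i j k l
    refine ⟨m, c4, ?_⟩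
    have : ⁅cc m (of l), rr i ⁅of j, of k⁆⁆ = 1 := by
      rw [commutatorElement_eq_one_iff_commute]
      symm
      apply commute_of_conj'
      rw [(pres_rr c1 (kil_comm2 (Ne.symm c2) (Ne.symm c3))).cc, rr_ne hl]
    rw [this]
    exact one_mem _

theorem RR_le_Zc2 (h5 : 5 ≤ Fintype.card ι) {X : Subgroup (MulAut (FreeGroup ι))} [X.Normal]
    (hX : X ≤ RR ι) (hc : ∀ r ∈ RR ι, ∀ s ∈ RR ι, ⁅r, s⁆ ∈ X) : RR ι ≤ Zc (Zc X) :=
  RR_le fun _ _ _ h1 h2 _ => c_mem h5 hX hc h1 h2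

/-- **Unipotence.** -/
theorem unip (h5 : 5 ≤ Fintype.card ι) {X : Subgroup (MulAut (FreeGroup ι))} [X.Normal]
    (hX : X ≤ RR ι) (hc : ∀ r ∈ RR ι, ∀ s ∈ RR ι, ⁅r, s⁆ ∈ X)
    (h : RR ι ≤ X ⊔ ⁅IA (FreeGroup ι), RR ι⁆) : RR ι ≤ X := by
  have h1 : ⁅IA (FreeGroup ι), RR ι⁆ ≤ Zc X := by
    rw [Subgroup.commutator_le]
    intro δ hδ r hr
    exact (RR_le_Zc2 h5 hX hc hr).2 δ hδ
  have h2 : RR ι ≤ Zc X := h.trans (sup_le (le_Zc hX) h1)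
  have h3 : ⁅IA (FreeGroup ι), RR ι⁆ ≤ X := by
    rw [Subgroup.commutator_le]
    intro δ hδ r hr
    exact (h2 hr).2 δ hδ
  exact h.trans (sup_le le_rfl h3)

end Pool.Agent.V5helper31.CF
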